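import Pool.Agent.H63.MM.Frm

/-! Extraction of coefficients at a place: if `∑ u j * c j` is small, for fixed independent `u j` in
`A` and variable `c j` in `B`, then the `c j` are small. -/

set_option autoImplicit false
set_option linter.overlappingInstances false
set_option linter.unusedSectionVars false

open FF IntermediateField Pool.Agent.W619.PQ Pool.Agent.W619.PL Pool.Agent.W619.TW
  Pool.Agent.W603.LV Pool.Agent.W619.Y

namespace Pool.Agent.H63.YC

section

variable {k M : Type} [Field k] [Field M] [Algebra k M] {A B : IntermediateField k M} {p : ℕ}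

theorem ge_self (w : Place k M) (f : M) : Ge w (w.ord f) f := Or.inr le_rfl

/-- **Extraction of coefficients.** -/
theorem ce (w : Place k M) (δ : Fin p → Derivation k M M) (hB : ∀ l (b : B), δ l (b : M) = 0)
    (hA : ∀ l (a : A), ∃ a' : A, δ l (a : M) = (a' : M))
    (hc : ∀ a : A, (∀ l, δ l (a : M) = 0) → ∃ c : k, a = algebraMap k A c) (P : ℤ)
    (hP : ∀ l m z, Ge w m z → Ge w (m - P) (δ l z)) :
    ∀ (d : ℕ) (ι : Type) [Finite ι] (u : Fin d → ι → A), LinearIndependent k u →
      ∃ K : ℤ, ∀ (N : ℤ) (c : Fin d → B), (∀ i, Ge w N (∑ j, (u j i : M) * (c j : M))) →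
        ∀ j, Ge w (N - K) (c j : M) := by
  classical
  choose g hg using hA
  intro d
  induction d with
  | zero =>
    intro ι _ u _
    exact ⟨0, fun N c _ j => j.elim0⟩
  | succ d ih =>
    intro ι _ u hu
    have hlast : ∃ i0, u (Fin.last d) i0 ≠ 0 := by
      by_contra h
      push Not at h
      exact hu.ne_zero (Fin.last d) (funext h)
    obtain ⟨i0, hi0⟩ := hlast
    let f : A := u (Fin.last d) i0
    have hf0 : f ≠ 0 := hi0
    have hfM : (f : M) ≠ 0 := fun h => hf0 (Subtype.ext h)
    let u' : Fin (d + 1) → ι → A := fun j i => f⁻¹ * u j i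
    have hu' : ∀ lam : Fin (d + 1) → k, (∀ i, ∑ j, lam j • u' j i = 0) → ∀ j, lam j = 0 := by
      intro lam hlam
      rw [Fintype.linearIndependent_iff] at hu
      refine hu lam ?_
      funext i
      rw [Finset.sum_apply]
      have h1 := hlam i
      have h2 : ∑ j, lam j • u' j i = f⁻¹ * ∑ j, lam j • u j i := by
        rw [Finset.mul_sum]
        refine Finset.sum_congr rfl fun j _ => ?_
        change lam j • (f⁻¹ * u j i) = _
        rw [mul_smul_comm]
      rw [h2] at h1
      exact (mul_eq_zero.1 h1).resolve_left (inv_ne_zero hf0)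
    have hu'l : u' (Fin.last d) i0 = 1 := inv_mul_cancel₀ hf0
    -- the new vectors
    let v : Fin d → (Fin p ⊕ ι) → A := fun j => Sum.elim (fun l => g l (u' j.castSucc i0))
      (fun i => u' j.castSucc i - u' (Fin.last d) i * u' j.castSucc i0)
    have hv : LinearIndependent k v := by
      rw [Fintype.linearIndependent_iff]
      intro lam hlam
      have h1 : ∀ l, ∑ j, lam j • g l (u' j.castSucc i0) = 0 := by
        intro l
        have h2 := congrFun hlam (Sum.inl l)
        rw [Finset.sum_apply] at h2
        exact h2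
      have h2 : ∀ i, ∑ j, lam j • (u' j.castSucc i - u' (Fin.last d) i * u' j.castSucc i0) = 0 := by
        intro i
        have h2 := congrFun hlam (Sum.inr i)
        rw [Finset.sum_apply] at h2
        exact h2
      obtain ⟨c, hcc⟩ := hc (∑ j, lam j • u' j.castSucc i0) (by
        intro l
        have h3 : ((∑ j, lam j • u' j.castSucc i0 : A) : M) =
            ∑ j, lam j • ((u' j.castSucc i0 : A) : M) := by
          rw [AddSubmonoidClass.coe_finsetSum]
          rfl
        rw [h3, map_sum]
        have h4 : ∀ j, δ l (lam j • ((u' j.castSucc i0 : A) : M)) =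
            ((lam j • g l (u' j.castSucc i0) : A) : M) := by
          intro j
          rw [Derivation.map_smul, hg]
          rfl
        rw [Finset.sum_congr rfl fun j _ => h4 j, ← AddSubmonoidClass.coe_finsetSum, h1]
        rfl)
      have h5 := hu' (Fin.snoc lam (-c)) (by
        intro i
        rw [Fin.sum_univ_castSucc]
        simp only [Fin.snoc_castSucc, Fin.snoc_last]
        have h6 := h2 i
        have h7 : ∑ j, lam j • (u' j.castSucc i - u' (Fin.last d) i * u' j.castSucc i0) =
            ∑ j, lam j • u' j.castSucc i - u' (Fin.last d) i * ∑ j, lam j • u' j.castSucc i0 := by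
          rw [Finset.mul_sum, ← Finset.sum_sub_distrib]
          refine Finset.sum_congr rfl fun j _ => ?_
          rw [smul_sub, mul_smul_comm]
        rw [h7, hcc] at h6
        rw [neg_smul, Algebra.smul_def c, mul_comm, ← sub_eq_add_neg]
        rw [← h6])
      intro j
      have h6 := h5 j.castSucc
      rwa [Fin.snoc_castSucc] at h6
    obtain ⟨K', hK'⟩ := ih (Fin p ⊕ ι) v hv
    -- bounds for the orders of the coefficients
    have hbd : ∃ C : ℤ, 0 ≤ C ∧ (∀ i, Ge w (-C) ((u' (Fin.last d) i : A) : M)) ∧
        (∀ j, Ge w (-C) ((u' j i0 : A) : M)) ∧ 0 ≤ P + C := by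
      have := Fintype.ofFinite ι
      let C : ℤ := ∑ i, |w.ord ((u' (Fin.last d) i : A) : M)| +
        ∑ j, |w.ord ((u' j i0 : A) : M)| + |P|
      have hC1 : ∀ i, |w.ord ((u' (Fin.last d) i : A) : M)| ≤
          ∑ i, |w.ord ((u' (Fin.last d) i : A) : M)| := fun i =>
        Finset.single_le_sum (f := fun i => |w.ord ((u' (Fin.last d) i : A) : M)|)
          (fun _ _ => abs_nonneg _) (Finset.mem_univ i)
      have hC2 : ∀ j, |w.ord ((u' j i0 : A) : M)| ≤ ∑ j, |w.ord ((u' j i0 : A) : M)| := fun j =>
        Finset.single_le_sum (f := fun j => |w.ord ((u' j i0 : A) : M)|)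
          (fun _ _ => abs_nonneg _) (Finset.mem_univ j)
      have h1 : 0 ≤ ∑ i, |w.ord ((u' (Fin.last d) i : A) : M)| :=
        Finset.sum_nonneg fun _ _ => abs_nonneg _
      have h2 : 0 ≤ ∑ j, |w.ord ((u' j i0 : A) : M)| := Finset.sum_nonneg fun _ _ => abs_nonneg _
      have h3 : 0 ≤ |P| := abs_nonneg _
      refine ⟨C, by positivity, fun i => ?_, fun j => ?_, ?_⟩
      · right
        have h4 := hC1 i
        have h5 := neg_abs_le (w.ord ((u' (Fin.last d) i : A) : M))
        simp only [C]
        linarith
      · right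
        have h4 := hC2 j
        have h5 := neg_abs_le (w.ord ((u' j i0 : A) : M))
        simp only [C]
        linarith
      · have h5 := neg_abs_le P
        simp only [C]
        linarith
    obtain ⟨C, hC0, hCi, hCj, hCP⟩ := hbd
    let o : ℤ := w.ord (f : M)
    let Q : ℤ := |P| + C + |o|
    have hQ1 : 0 ≤ |P| := abs_nonneg _
    have hQ2 : 0 ≤ |o| := abs_nonneg _
    have hQ3 := le_abs_self P
    have hQ4 := le_abs_self o
    refine ⟨|K'| + 2 * Q, fun N c hN => ?_⟩
    have hQK := le_abs_self K'
    have hQK0 := abs_nonneg K'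
    have hs : ∀ i, Ge w (N - o) (∑ j, ((u' j i : A) : M) * (c j : M)) := by
      intro i
      have h1 : ∑ j, ((u' j i : A) : M) * (c j : M) = (f : M)⁻¹ * ∑ j, ((u j i : A) : M) * (c j : M) := by
        rw [Finset.mul_sum]
        refine Finset.sum_congr rfl fun j _ => ?_
        change (((f⁻¹ * u j i : A)) : M) * _ = _
        push_cast
        ring
      rw [h1]
      have h2 := (ge_self w ((f : M)⁻¹)).mul (hN i)
      rw [w.ord_inv] at h2
      refine h2.mono ?_
      change N - o ≤ -o + N
      linarith
    set s0 : M := ∑ j, ((u' j i0 : A) : M) * (c j : M) with hs0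
    have hsum : ∀ i, ∑ j, ((u' j i : A) : M) * (c j : M) =
        ∑ j : Fin d, ((u' j.castSucc i : A) : M) * (c j.castSucc : M) +
          ((u' (Fin.last d) i : A) : M) * (c (Fin.last d) : M) := fun i => Fin.sum_univ_castSucc _
    have hv1 : ∀ i, Ge w (N - Q) (∑ j, ((v j i : A) : M) * (c j.castSucc : M)) := by
      rintro (l | i)
      · have h1 : ∑ j, ((v j (Sum.inl l) : A) : M) * (c j.castSucc : M) = δ l s0 := by
          rw [hs0, hsum, map_add, map_sum, Derivation.leibniz, hB, smul_zero, zero_add]
          rw [hu'l]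
          have h2 : δ l ((1 : A) : M) = 0 := by
            change δ l (1 : M) = 0
            exact Derivation.map_one_eq_zero _
          rw [h2, smul_zero, add_zero]
          refine Finset.sum_congr rfl fun j _ => ?_
          rw [Derivation.leibniz, hB, smul_zero, zero_add, hg, smul_eq_mul, mul_comm]
          rfl
        rw [h1]
        refine (hP l _ _ (hs i0)).mono ?_
        simp only [Q]
        linarith
      · have h1 : ∑ j, ((v j (Sum.inr i) : A) : M) * (c j.castSucc : M) =
            (∑ j, ((u' j i : A) : M) * (c j : M)) - ((u' (Fin.last d) i : A) : M) * s0 := by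
          rw [hs0, hsum, hsum i0, hu'l]
          have h2 : ((1 : A) : M) = 1 := rfl
          rw [h2, one_mul, mul_add, Finset.mul_sum, add_sub_add_right_eq_sub,
            ← Finset.sum_sub_distrib]
          refine Finset.sum_congr rfl fun j _ => ?_
          change (((u' j.castSucc i - u' (Fin.last d) i * u' j.castSucc i0 : A)) : M) * _ = _
          push_cast
          ring
        rw [h1]
        refine ((hs i).mono ?_).sub (((hCi i).mul (hs i0)).mono ?_)
        · simp only [Q]
          linarith
        · simp only [Q]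
          linarith
    have hcast : ∀ j : Fin d, Ge w (N - Q - K') (c j.castSucc : M) := hK' _ _ hv1
    intro j
    refine Fin.lastCases ?_ (fun j => ?_) j
    · have h1 : ((c (Fin.last d) : B) : M) =
          s0 - ∑ j : Fin d, ((u' j.castSucc i0 : A) : M) * (c j.castSucc : M) := by
        rw [hs0, hsum, hu'l]
        have h2 : ((1 : A) : M) = 1 := rfl
        rw [h2, one_mul]
        ring
      rw [h1]
      refine ((hs i0).mono ?_).sub (Ge.sum _ _ fun j _ => ((hCj j.castSucc).mul (hcast j)).mono ?_)
      · simp only [Q]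
        linarith
      · simp only [Q]
        linarith
    · refine (hcast j).mono ?_
      simp only [Q]
      linarith

end

section

variable {k M : Type} [Field k] [CharZero k] [Field M] [Algebra k M] [Algebra.EssFiniteType k M]

/-- derivations are continuous at divisorial places -/
theorem der_cont {n : ℕ} (hn : Algebra.trdeg k M = n) (w : Place k M) (hw : IsDivisorial w n)
    (D : Derivation k M M) : ∃ P : ℤ, ∀ m z, Ge w m z → Ge w (m - P) (D z) := by
  classical
  obtain ⟨y, E, i0, hy, hE, h1, hr, hp⟩ := pFRAME k M n hn (fun y hy => fin_over y hy) w hw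
  have hy0 : y i0 ≠ 0 := by
    intro h
    rw [h, w.ord_zero] at h1
    omega
  -- the vector fields `y i0 • E b` are logarithmic
  have hlog : ∀ b m z, Ge w m z → Ge w (m - 1) (E b z) := by
    intro b m z hz
    have h2 : ∀ x, w.Reg ((y i0 • E b) x / x) := by
      refine log_of_pres w (y i0 • E b) (fun x hx => ?_) hy0 h1 ?_
      · have h3 : Ge w 0 (E b x) := hp b x hx
        have h31 : Ge w 0 (y i0) := hr i0
        have h4 := h31.mul h3
        rw [add_zero] at h4
        exact h4
      · change w.Reg (y i0 * E b (y i0) / y i0)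
        rw [mul_div_cancel_left₀ _ hy0, hE]
        split_ifs
        · exact w.reg_one
        · exact w.reg_zero
    by_cases hz0 : z = 0
    · left
      rw [hz0, map_zero]
    have h5 : Ge w 0 ((y i0 • E b) z / z) := h2 z
    have h6 := h5.mul hz
    rw [div_mul_cancel₀ _ hz0, zero_add] at h6
    exact Ge.of_mul' (P := w) (N := m - 1) (m := 1) hy0 h1 (by
      rw [sub_add_cancel]
      exact h6)
  let C : ℤ := ∑ b, |w.ord (D (y b))|
  refine ⟨C + 1, fun m z hz => ?_⟩
  have h2 : D z = ∑ b, D (y b) * E b z := by
    have h3 := der_zero (K := M) (L := M) (D - ∑ b, D (y b) • E b) y hy (fun l => by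
      change (D - ∑ b, D (y b) • E b) (y l) = 0
      rw [Derivation.sub_apply, Pool.Agent.W460.PG.ONE.der_sum]
      simp [hE]) z
    change (D - ∑ b, D (y b) • E b) z = 0 at h3
    rw [Derivation.sub_apply, Pool.Agent.W460.PG.ONE.der_sum, sub_eq_zero] at h3
    exact h3
  rw [h2]
  refine Ge.sum _ _ fun b _ => ?_
  refine ((ge_self w (D (y b))).mul (hlog b m z hz)).mono ?_
  have h4 : |w.ord (D (y b))| ≤ C := Finset.single_le_sum (f := fun b => |w.ord (D (y b))|)
    (fun _ _ => abs_nonneg _) (Finset.mem_univ b)
  have h5 := neg_abs_le (w.ord (D (y b)))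
  linarith

end

end Pool.Agent.H63.YC
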