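import Pool.Agent.H63.YC.Up

/-! Functions on the curve. -/

set_option autoImplicit false
set_option linter.overlappingInstances false
set_option linter.unusedSectionVars false

open FF IntermediateField Pool.Agent.W619.PQ Pool.Agent.W619.PL Pool.Agent.W619.TW
  Pool.Agent.W603.LV Pool.Agent.W619.Y Q36.GP

namespace Pool.Agent.H63.YC

section

variable {k K : Type} [Field k] [CharZero k] [IsAlgClosed k] [Field K] [Algebra k K] [IsFF k K]

theorem finrank_LL_le (D : Place k K →₀ ℤ) (κ : ℕ) (h : ddeg D ≤ κ) :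
    Module.finrank k (LL D) ≤ κ + 1 := by
  classical
  obtain ⟨P, -⟩ := exists_place (k := k) (K := K)
  let D' : Place k K →₀ ℤ := D - Finsupp.single P ((κ : ℤ) + 1)
  have h1 : D' ≤ D := by
    intro Q
    simp only [D', Finsupp.coe_sub, Pi.sub_apply]
    have h2 : (0 : ℤ) ≤ Finsupp.single P ((κ : ℤ) + 1) Q := by
      rw [Finsupp.single_apply]
      split_ifs
      · positivity
      · exact le_refl _
    linarith
  have h2 : ddeg D' = ddeg D - (κ + 1) := by
    simp only [D']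
    rw [ddeg_sub, ddeg_single, deg_one]
    push_cast
    ring
  have h3 : ell D' = 0 := by
    unfold ell
    rw [LL_eq_bot (by rw [h2]; omega), finrank_bot]
    rfl
  have h4 := ell_le h1
  rw [h3, h2] at h4
  unfold ell at h4
  omega

theorem exists_two (Z : Place k K →₀ ℤ) (hZ : 1 ≤ ddeg Z) : ∃ t : ℕ, 1 ≤ t ∧
    ∃ h1 ∈ LL (t • Z), ∃ h2 ∈ LL (t • Z), h2 ≠ 0 ∧ Transcendental k (h1 / h2) := by
  obtain ⟨γ, N, hγ, -⟩ := riemann k K
  let t : ℕ := γ.natAbs + 2
  refine ⟨t, by omega, ?_⟩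
  have h1 : (2 : ℤ) ≤ ell (t • Z) := by
    have h2 := hγ (t • Z)
    rw [ddeg_nsmul] at h2
    have h3 : (t : ℤ) * 1 ≤ t * ddeg Z := mul_le_mul_of_nonneg_left hZ (by positivity)
    have h4 : γ + 2 ≤ (t : ℤ) := by
      simp only [t]
      push_cast
      have := le_abs_self γ
      linarith
    linarith
  unfold ell at h1
  have h2 : 1 < Module.finrank k (LL (t • Z)) := by omega
  have h3 : 0 < Module.finrank k (LL (t • Z)) := by omega
  rw [Module.finrank_pos_iff_exists_ne_zero] at h3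
  obtain ⟨g, hg⟩ := h3
  obtain ⟨f, hf⟩ := exists_linearIndependent_pair_of_one_lt_finrank h2 hg
  have hg0 : (g : K) ≠ 0 := fun h => hg (Subtype.ext h)
  refine ⟨f, f.2, g, g.2, hg0, fun halg => ?_⟩
  obtain ⟨c, hc⟩ := const_of_alg halg
  rw [LinearIndependent.pair_iff] at hf
  have h5 := hf (-c) 1 (by
    apply Subtype.ext
    change (-c) • (g : K) + (1 : k) • (f : K) = 0
    rw [one_smul, neg_smul, Algebra.smul_def, ← hc, div_mul_cancel₀ _ hg0, neg_add_cancel])
  exact one_ne_zero h5.2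

/-- places of curves are divisorial -/
theorem div_curve (w0 : Place k K) : IsDivisorial w0 1 := by
  refine ⟨fun i => i.elim0, fun P hP => ?_⟩
  have : IsEmpty (Fin (1 - 1)) := Fin.isEmpty
  obtain ⟨c, rfl⟩ : ∃ c, P = MvPolynomial.C c := ⟨_, MvPolynomial.eq_C_of_isEmpty P⟩
  have hc : c ≠ 0 := fun h => hP (by rw [h, map_zero])
  rw [MvPolynomial.aeval_C]
  exact ⟨by simpa using hc, w0.ord_const hc⟩

end

theorem exists_min {Pl : Type} (P : Pl → ℕ → Prop) (R : Pl → ℤ) (r : ℕ) (hr : 1 ≤ r) (m0 : ℕ)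
    (a : ℤ) (hpos : ∀ w e, P w e → 0 < e) (hdvd : ∀ w e, P w e → (r.factorial : ℤ) ∣ R w)
    (hlow : ∀ w e, P w e → (m0 : ℤ) * (e * a - r) ≤ R w) (w1 : Pl) (h1 : P w1 1)
    (hup : R w1 ≤ m0 * (a - 1)) :
    ∃ z : ℤ, (∃ w e, P w e ∧ R w = z * e) ∧ ∀ w e, P w e → z * e ≤ R w := by
  obtain ⟨z, ⟨w, e, hP, her, hz⟩, hmin⟩ := Int.exists_least_of_bdd
    (P := fun z => ∃ w e, P w e ∧ e ≤ r ∧ R w = z * e) ⟨(m0 : ℤ) * (a - r), by
      rintro z ⟨w, e, hP, -, hz⟩
      have h2 := hlow w e hP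
      have h3 : (1 : ℤ) ≤ e := by exact_mod_cast hpos w e hP
      rw [hz] at h2
      by_contra h4
      push Not at h4
      have h5 : z + 1 ≤ (m0 : ℤ) * (a - r) := h4
      have h6 : (z + 1) * e ≤ ((m0 : ℤ) * (a - r)) * e :=
        mul_le_mul_of_nonneg_right h5 (by linarith)
      have h7 : (m0 : ℤ) * r ≤ m0 * r * e := le_mul_of_one_le_right (by positivity) h3
      nlinarith⟩ ⟨R w1, w1, 1, h1, hr, by simp⟩
  refine ⟨z, ⟨w, e, hP, hz⟩, fun w' e' hP' => ?_⟩
  by_cases he' : e' ≤ r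
  · have h2 : (e' : ℤ) ∣ R w' := by
      refine dvd_trans ?_ (hdvd w' e' hP')
      exact_mod_cast Nat.dvd_factorial (hpos w' e' hP') he'
    obtain ⟨z', hz'⟩ := h2
    have h3 := hmin z' ⟨w', e', hP', he', by rw [hz', mul_comm]⟩
    rw [hz', mul_comm]
    exact mul_le_mul_of_nonneg_left h3 (by positivity)
  · push Not at he'
    have h2 := hlow w' e' hP'
    have h3 := hmin (R w1) ⟨w1, 1, h1, hr, by simp⟩
    have h4 : z ≤ m0 * (a - 1) := h3.trans hup
    have h5 : z * e' ≤ m0 * (a - 1) * e' := mul_le_mul_of_nonneg_right h4 (by positivity)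
    have h6 : (m0 : ℤ) * r ≤ m0 * e' :=
      mul_le_mul_of_nonneg_left (by exact_mod_cast he'.le) (by positivity)
    nlinarith

section

variable {k M : Type} [Field k] [CharZero k] [IsAlgClosed k] [Field M] [Algebra k M]
  {A B : IntermediateField k M} {p n : ℕ} [hBF : IsFF k B]

/-- **The coefficients are regular at almost all places of the curve.** -/
theorem almost (h' : Pr B A) (hB : Algebra.trdeg k B = (1 : ℕ)) (hn : p + 1 = n)
    (F : Q36.GP.Frm A B p 1 n)
    (DB : Derivation k B B) (hDB : DB (F.y 0) = 1) (a : A) (ha : a ≠ 0) (SM : Finset M) (h0 : M)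
    (hh0 : h0 ≠ 0) {d : ℕ} (u : Fin d → A) (hu : LinearIndependent k u) :
    ∃ T : Finset (Place k B), ∀ w0 ∉ T, ∀ (m s : ℕ) (θ : (Fin n → Derivation k M M) → M),
      IsSec k M n (fun _ => False) SM m 1 θ → ∀ c : Fin d → B,
      h0 * θ F.E = (a : M) ^ s * ∑ j, (u j : M) * (c j : M) → ∀ j, Ge w0 0 (c j) := by
  classical
  have hDB0 : DB ≠ 0 := by
    rintro rfl
    exact zero_ne_one hDB
  have hT : ∀ s : M, s ≠ 0 → ∃ T : Finset B, ∀ (u : Place k B) (U : Place k M),
      (∀ μ : B, U.ord (μ : M) = u.ord μ) → (∀ β : A, U.ord (β : M) = 0) →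
      (∀ (r : ℕ) (β : Fin r → A) (μ : Fin r → B) (c : ℤ), LinearIndependent k β →
        Ge U c (∑ i, (β i : M) * (μ i : M)) → ∀ i, Ge u c (μ i)) →
      ∃ s' ∈ T, s' ≠ 0 ∧ u.ord s' ≤ U.ord (h0 * s) :=
    fun s hs => Pool.Agent.W735.PG.DESCJ.exists_low h'.sup (mul_ne_zero hh0 hs)
  choose! T hT using hT
  let T1 : Finset (Place k B) := (vo_finite hDB0).toFinset
  let T2 : Finset (Place k B) := (SM.biUnion T).biUnion fun b => (finite_support (k := k) b).toFinset
  refine ⟨T1 ∪ T2, fun w0 hw0 m s θ hθ c hc j => ?_⟩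
  rw [Finset.mem_union, not_or] at hw0
  have hvo : vo w0 DB = 0 := by
    by_contra h
    exact hw0.1 ((vo_finite hDB0).mem_toFinset.2 h)
  have hT2 : ∀ s' ∈ SM, ∀ b ∈ T s', w0.ord b = 0 := by
    intro s' hs' b hb
    by_contra h
    exact hw0.2 (Finset.mem_biUnion.2 ⟨b, Finset.mem_biUnion.2 ⟨s', hs', hb⟩,
      (finite_support (k := k) b).mem_toFinset.2 h⟩)
  set U := UU h' w0 with hU
  obtain ⟨hf1, hf2⟩ := UU_frame h' F DB hDB w0
  have hr0 := der_pi_ne_zero hDB0 w0 (ord_unif w0)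
  have hrM : ((DB (unif w0) : B) : M) ≠ 0 := fun h => hr0 (Subtype.ext h)
  have hpres : ∀ i, Pres U (F.E i) := by
    intro i
    obtain ⟨s', rfl⟩ := F.ε.surjective i
    rcases s' with l | l
    · exact hf1 l
    · have hl : l = 0 := Subsingleton.elim _ _
      subst hl
      intro f hf
      have h2 := hf2 f hf
      change Ge U 0 ((((DB (unif w0))⁻¹ : B) : M) * F.E (F.ε (Sum.inr 0)) f) at h2
      have h3 : Ge U 0 ((DB (unif w0) : B) : M) := by
        right
        rw [UU_M]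
        exact hvo.ge
      have h4 := h3.mul h2
      have h5 : (((DB (unif w0))⁻¹ : B) : M) = ((DB (unif w0) : B) : M)⁻¹ := rfl
      rw [h5, mul_inv_cancel_left₀ hrM, add_zero] at h4
      exact h4
  have hdiv : IsDivisorial U n := by
    have h1 := UU_divG h' w0 hB F.x F.hx.1 (div_curve w0)
    rwa [add_comm, hn] at h1
  have haM : (a : M) ≠ 0 := fun h => ha (Subtype.ext h)
  have hθE : Ge U 0 (h0 * θ F.E) := by
    rcases hθ.2.1 U hdiv not_false F.E (fun l f hf => hpres l f hf) with h1 | ⟨s', hs', hs0, h1⟩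
    · left
      rw [h1, mul_zero]
    · by_cases h2 : θ F.E = 0
      · left
        rw [h2, mul_zero]
      right
      obtain ⟨b, hb, hb0, hle⟩ := hT s' hs0 w0 U (UU_M h' w0) (UU_F h' w0)
        (fun r β μ c hβ hz => UU_fam h' w0 r β μ c hβ hz)
      rw [hT2 s' hs' b hb, U.ord_mul hh0 hs0] at hle
      rw [U.ord_mul hh0 h2]
      simp only [Nat.cast_one, one_mul] at h1
      linarith
  rw [hc] at hθE
  have h5 : Ge U 0 (∑ j, (u j : M) * (c j : M)) := by
    refine Ge.of_mul' (P := U) (N := 0) (m := 0) (pow_ne_zero s haM) ?_ (by simpa using hθE)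
    rw [U.ord_pow, UU_F, mul_zero]
  exact UU_fam h' w0 d u c 0 hu h5 j

end

end Pool.Agent.H63.YC
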