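import Pool.Agent.H63.YC.Ce
import Pool.Graph.R_pool_sql_team_seeded_3997aac3.Q36.GP.Dm

/-! The sections on a product `Y × C`, where `κ (Y) = ν (Y) = 0`, are combinations of finitely many
fixed functions on `Y`, with coefficients on `C`. -/

set_option autoImplicit false
set_option linter.overlappingInstances false
set_option linter.unusedSectionVars false

open FF IntermediateField Pool.Agent.W619.PQ Pool.Agent.W619.PL Pool.Agent.W619.TW
  Pool.Agent.W603.LV Pool.Agent.W619.Y Q36.GP
open Pool.Agent.W460.PG.ONE (VV finrank_VV eval)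

namespace Pool.Agent.H63.YC

section

variable {k K : Type} [Field k] [Field K] [Algebra k K]

theorem dom_mul {v : Place k K} {S : Finset K} {j : ℕ} {f g : K} (hf : Dom v S j f)
    (hg : Dom v {1} 0 g) : Dom v S j (g * f) := by
  by_cases hg0 : g = 0
  · left
    rw [hg0, zero_mul]
  rcases hf with hf | ⟨s, hs, hs0, h1⟩
  · left
    rw [hf, mul_zero]
  · obtain ⟨s', hs', hs0', h2⟩ := hg.resolve_left hg0
    by_cases hf0 : f = 0
    · left
      rw [hf0, mul_zero]
    right
    refine ⟨s, hs, hs0, ?_⟩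
    rw [v.ord_mul hg0 hf0]
    simp only [Nat.cast_zero, zero_mul] at h2
    linarith

end

section

variable {k K : Type} [Field k] [CharZero k] [Field K] [Algebra k K] {p : ℕ}

theorem exists_fam {m0 : ℕ} {ω : (Fin p → Derivation k K K) → K}
    (hω : IsSec k K p (fun _ => False) {1} m0 0 ω) (x : Fin p → K)
    (hx : IsTranscendenceBasis k x) (E : Fin p → Derivation k K K)
    (hE : ∀ i j, E j (x i) = if i = j then 1 else 0) (h0 : ω E ≠ 0)
    (hN : NumLe k K p (fun _ => False) 0) (S : Finset K) :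
    ∃ (d : ℕ) (u : Fin d → K), LinearIndependent k u ∧ ∀ (s q : ℕ), 1 ≤ q → q ≤ m0 →
      ∀ μ ∈ VV k (fun _ => False) S (m0 * s + q) 1 x, ∃ c : Fin d → k,
        μ = ω E ^ s * ∑ j, c j • u j := by
  classical
  obtain ⟨C, hC⟩ := hN S
  let W : ℕ → ℕ → Submodule k K := fun q s =>
    (VV k (fun _ => False) S (m0 * s + q) 1 x).comap (LinearMap.mulLeft k (ω E ^ s))
  have hmem : ∀ q s z, z ∈ W q s ↔ ω E ^ s * z ∈ VV k (fun _ => False) S (m0 * s + q) 1 x :=
    fun q s z => Iff.rfl
  have hfin : ∀ q s, 1 ≤ q → Module.Finite k (W q s) ∧ Module.finrank k (W q s) ≤ C := by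
    intro q s hq
    obtain ⟨h1, h2⟩ := finrank_VV (fun _ => False) S (m0 * s + q) 1 x hx C (fun N hN => by
      have := hC (m0 * s + q) N (by omega) hN
      simpa using this)
    let φ : W q s →ₗ[k] VV k (fun _ => False) S (m0 * s + q) 1 x :=
      ((LinearMap.mulLeft k (ω E ^ s)).comp (W q s).subtype).codRestrict _ fun z => z.2
    have hφ : Function.Injective φ := by
      intro a b hab
      have h3 : ω E ^ s * (a : K) = ω E ^ s * (b : K) := congrArg Subtype.val hab
      exact Subtype.ext (mul_left_cancel₀ (pow_ne_zero _ h0) h3)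
    exact ⟨Module.Finite.of_injective φ hφ,
      (LinearMap.finrank_le_finrank_of_injective hφ).trans h2⟩
  have hstep : ∀ q s, W q s ≤ W q (s + 1) := by
    intro q s z hz
    rw [hmem] at hz ⊢
    have h1 : IsSec k K p (fun _ => False) S (m0 * s + q) 1
      (fun D => (ω E ^ s * z) * (Matrix.of fun a b => D a (x b)).det ^ (m0 * s + q)) := hz
    change IsSec k K p (fun _ => False) S (m0 * (s + 1) + q) 1
      (fun D => (ω E ^ (s + 1) * z) * (Matrix.of fun a b => D a (x b)).det ^ (m0 * (s + 1) + q))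
    have h2 : (fun D : Fin p → Derivation k K K => (ω E ^ (s + 1) * z) *
        (Matrix.of fun a b => D a (x b)).det ^ (m0 * (s + 1) + q)) = fun D => ω D *
        ((ω E ^ s * z) * (Matrix.of fun a b => D a (x b)).det ^ (m0 * s + q)) := by
      funext D
      rw [eval x hx E hE hω.1 D]
      ring
    rw [h2]
    refine ⟨fun X D => ?_, fun v hv hb D hD => ?_, fun v _ hv => hv.elim⟩
    · have h3 := h1.1 X D
      have h4 := hω.1 X D
      beta_reduce at h3 ⊢
      rw [h3, h4]
      ring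
    · exact dom_mul (h1.2.1 v hv hb D hD) (hω.2.1 v hv hb D hD)
  have hmono : ∀ q, Monotone (W q) := fun q => monotone_nat_of_le_succ (hstep q)
  have hmax : ∀ q, 1 ≤ q → ∃ s1, ∀ s, W q s ≤ W q s1 := by
    intro q hq
    have h1 := Nat.sSup_mem (Set.range_nonempty fun s => Module.finrank k (W q s)) ⟨C, by
      rintro _ ⟨s, rfl⟩
      exact (hfin q s hq).2⟩
    obtain ⟨s1, hs1⟩ := h1
    refine ⟨s1, fun s => ?_⟩
    have h2 : Module.finrank k (W q (max s s1)) ≤ Module.finrank k (W q s1) := by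
      have h3 : Module.finrank k (W q (max s s1)) ≤
          sSup (Set.range fun s => Module.finrank k (W q s)) :=
        le_csSup ⟨C, by
          rintro _ ⟨s, rfl⟩
          exact (hfin q s hq).2⟩ ⟨_, rfl⟩
      exact h3.trans hs1.ge
    have := (hfin q (max s s1) hq).1
    have h3 := Submodule.eq_of_le_of_finrank_le (hmono q (le_max_right s s1)) h2
    rw [h3]
    exact hmono q (le_max_left s s1)
  choose s1 hs1 using fun q : Fin m0 => hmax (q + 1) (by omega)
  let U : Submodule k K := ⨆ q : Fin m0, W (q + 1) (s1 q)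
  have hU : Module.Finite k U := by
    have : ∀ q : Fin m0, Module.Finite k (W (q + 1) (s1 q)) := fun q => (hfin _ _ (by omega)).1
    exact Submodule.finite_iSup _
  let b := Module.finBasis k U
  refine ⟨_, fun j => (b j : K), b.linearIndependent.map' U.subtype (Submodule.ker_subtype U),
    fun s q hq hq' μ hμ => ?_⟩
  have h1 : (ω E ^ s)⁻¹ * μ ∈ W q s := by
    rw [hmem, mul_inv_cancel_left₀ (pow_ne_zero _ h0)]
    exact hμ
  have h2 : (ω E ^ s)⁻¹ * μ ∈ U := by
    have h3 := hs1 ⟨q - 1, by omega⟩ s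
    have h4 : q - 1 + 1 = q := by omega
    have h5 : W ((⟨q - 1, by omega⟩ : Fin m0) + 1) s = W q s := by
      change W (q - 1 + 1) s = W q s
      rw [h4]
    rw [h5] at h3
    exact (le_iSup (fun q : Fin m0 => W (q + 1) (s1 q)) ⟨q - 1, by omega⟩) (h3 h1)
  refine ⟨fun j => b.repr ⟨_, h2⟩ j, ?_⟩
  have h3 := congrArg (fun z : U => (z : K)) (b.sum_repr ⟨_, h2⟩)
  change ((∑ j, b.repr ⟨_, h2⟩ j • b j : U) : K) = (ω E ^ s)⁻¹ * μ at h3
  rw [AddSubmonoidClass.coe_finsetSum] at h3
  have h4 : ∑ j, b.repr ⟨_, h2⟩ j • (b j : K) = (ω E ^ s)⁻¹ * μ := h3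
  rw [h4, mul_inv_cancel_left₀ (pow_ne_zero _ h0)]

end

section

variable {k M : Type} [Field k] [CharZero k] [IsAlgClosed k] [Field M] [Algebra k M]
  {A B : IntermediateField k M} {p q' n : ℕ}

/-- **The sections on the product.** -/
theorem sec_fam (h : Pr A B) (h' : Pr B A) (hA : Algebra.trdeg k A = p)
    (hB : Algebra.trdeg k B = q') [Algebra.EssFiniteType k B] (hn : p + q' = n)
    (F : Q36.GP.Frm A B p q' n) {m0 : ℕ} {ω : (Fin p → Derivation k A A) → A}
    (hω : IsSec k A p (fun _ => False) {1} m0 0 ω) (E : Fin p → Derivation k A A)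
    (hE : ∀ i j, E j (F.x i) = if i = j then 1 else 0) (h0 : ω E ≠ 0)
    (hN : NumLe k A p (fun _ => False) 0) (S : Finset M) :
    ∃ (h0 : M) (d : ℕ) (u : Fin d → A), h0 ≠ 0 ∧ LinearIndependent k u ∧
      ∀ (s q : ℕ), 1 ≤ q → q ≤ m0 → ∀ θ : (Fin n → Derivation k M M) → M,
      IsSec k M n (fun _ => False) S (m0 * s + q) 1 θ → ∃ c : Fin d → B,
        h0 * θ F.E = (ω E : M) ^ s * ∑ j, (u j : M) * (c j : M) := by
  classical
  obtain ⟨g0, SA, SB, hg0, hbase⟩ := prod_base h h' hA hB hn F (fun _ => False) (fun _ => False) S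
  obtain ⟨d, u, hu, hfam⟩ := exists_fam hω F.x F.hx E hE h0 hN SA
  refine ⟨g0, d, u, hg0, hu, fun s q hq hq' θ hθ => ?_⟩
  obtain ⟨r, a, b, ha, -, hsum⟩ := hbase (m0 * s + q) 1 θ (by
    rw [bdTwo_false]
    exact hθ)
  choose c hc using fun l => hfam s q hq hq' (a l) (ha l)
  refine ⟨fun j => ∑ l, c l j • b l, ?_⟩
  rw [pow_one] at hsum
  rw [hsum]
  have h1 : ∀ l, ((a l : A) : M) * (b l : M) =
      (ω E : M) ^ s * ∑ j, (u j : M) * ((c l j • b l : B) : M) := by
    intro l
    have h2 : ((a l : A) : M) = (ω E : M) ^ s * ∑ j, c l j • (u j : M) := by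
      have h3 : ((a l : A) : M) = ((ω E ^ s * ∑ j, c l j • u j : A) : M) :=
        congrArg (fun z : A => (z : M)) (hc l)
      rw [h3]
      push_cast
      rfl
    rw [h2, mul_assoc, Finset.sum_mul]
    congr 1
    refine Finset.sum_congr rfl fun j _ => ?_
    change (c l j • (u j : M)) * (b l : M) = (u j : M) * (c l j • (b l : M))
    rw [smul_mul_assoc, mul_smul_comm]
  rw [Finset.sum_congr rfl fun l _ => h1 l, ← Finset.mul_sum, Finset.sum_comm]
  congr 1
  refine Finset.sum_congr rfl fun j _ => ?_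
  rw [← Finset.mul_sum, AddSubmonoidClass.coe_finsetSum]

end

end Pool.Agent.H63.YC
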