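import Pool.Agent.H63.YC.Crv

/-! Varieties dominated by `Y × C`, where `κ (Y) = ν (Y) = 0`: if `ν > 0` then `κ > 0`. -/

set_option autoImplicit false
set_option linter.overlappingInstances false
set_option linter.unusedSectionVars false

open FF IntermediateField Pool.Agent.W619.PQ Pool.Agent.W619.PL Pool.Agent.W619.TW
  Pool.Agent.W603.LV Pool.Agent.W619.Y Q36.GP

namespace Pool.Agent.H63.YC

section

variable {k L M : Type} [Field k] [CharZero k] [IsAlgClosed k] [Field L] [Field M] [Algebra k L]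
  [Algebra k M] [Algebra L M] [IsScalarTower k L M] [FiniteDimensional L M]
  {A B : IntermediateField k M} {p n : ℕ} [hBF : IsFF k B]

theorem Dat.dvd {b : M} {m1 ρ : ℕ} {z : Fin n → M} {w : Place k M} {R : ℤ}
    (h : Dat L (b ^ ρ) (m1 * ρ) z w R) : (ρ : ℤ) ∣ R := by
  obtain ⟨v, ε, y, E1, E', i0, -, -, -, -, -, -, -, -, -, rfl⟩ := h
  rw [pow_mul, ← mul_pow, w.ord_pow]
  exact Dvd.intro _ rfl

/-- **The main theorem.** -/
theorem kod_one [Algebra.EssFiniteType k A] [Algebra.EssFiniteType k M]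
    [Algebra.EssFiniteType k L] (hA : Algebra.trdeg k A = p) (hM : Algebra.trdeg k M = n)
    (hL : Algebra.trdeg k L = n) (hn : p + 1 = n) (hsup : A ⊔ B = ⊤) (hK : KodTr k A p 0)
    (hN : NumLe k A p (fun _ => False) 0) (hL1 : NumLe k L n (fun _ => False) 1)
    (hnot : ¬ NumLe k L n (fun _ => False) 0) : KodTr k L n 1 := by
  classical
  have hB : Algebra.trdeg k B = (1 : ℕ) := by
    rw [hBF.trdeg, Nat.cast_one]
  have hBess : Algebra.EssFiniteType k B := hBF.ess
  have hMpn : Algebra.trdeg k M = (p + 1 : ℕ) := by rw [hn]; exact hM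
  have h : Pr A B := pr_of_trdeg hA hB hMpn hsup
  have h' : Pr B A := pr_symm hA hB hMpn hsup
  obtain ⟨F⟩ := Q36.GP.exists_frm h hA hB hMpn hn
  obtain ⟨m1, hm1, ω0, hω0, D0, hD0, -⟩ := hK
  choose E hE' using fun j => exists_dual F.x F.hx j
  have hE : ∀ i j, E i (F.x j) = if i = j then 1 else 0 := by
    intro i j
    rw [hE']
    by_cases hij : i = j
    · rw [if_pos hij, if_pos hij.symm]
    · rw [if_neg hij, if_neg (Ne.symm hij)]
  have hω1 := hω0 0
  have hωE : ω0 0 E ≠ 0 := by
    intro h0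
    apply hD0 0
    rw [pluri_frame hω1.1 F.x F.hx E hE D0, h0, mul_zero]
  -- the weight
  set r : ℕ := Module.finrank L M with hr
  have hr1 : 1 ≤ r := Module.finrank_pos
  set ρ : ℕ := r.factorial with hρ
  have hρ0 : 0 < ρ := Nat.factorial_pos r
  set m0 : ℕ := m1 * ρ with hm0
  have hm0p : 1 ≤ m0 := Nat.mul_pos hm1 hρ0
  let ω : (Fin p → Derivation k A A) → A := fun D => ω0 0 D ^ ρ
  have hω : IsSec k A p (fun _ => False) {1} m0 0 ω := by
    refine ⟨fun X D => ?_, fun v hv _ D hD => ?_, fun v _ hv => hv.elim⟩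
    · change ω0 0 _ ^ ρ = _ * ω0 0 D ^ ρ
      rw [hω1.1 X D, mul_pow, ← pow_mul]
    · apply Pool.Agent.W721.PG.EFF2.dom_of_reg
      have h2 : Ge v 0 (ω0 0 D) := (Q36.GV.reg_of_sec hω1).2 v hv D hD
      have h3 := h2.pow ρ
      rw [mul_zero] at h3
      exact h3
  have hreg : ∀ u : Place k A, IsDivisorial u p → RegularAt u p ω := (Q36.GV.reg_of_sec hω).2
  have hω0E : ω E ≠ 0 := pow_ne_zero _ hωE
  set η : A := ω E with hη
  have hηρ : (η : M) = ((ω0 0 E : A) : M) ^ ρ := by
    rw [hη]
    simp only [ω]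
    push_cast
    rfl
  have hηM : (η : M) ≠ 0 := fun h => hω0E (Subtype.ext h)
  -- the data
  unfold NumLe at hnot
  push Not at hnot
  obtain ⟨S, hS⟩ := hnot
  obtain ⟨SM, hSM⟩ := exists_pull (M := M) hL S
  obtain ⟨h0, d, u, hh0, hu, hfam⟩ := sec_fam h h' hA hB hn F hω E
    (fun i j => hE' j i) hω0E hN SM
  obtain ⟨DB, hDB⟩ : ∃ DB : Derivation k B B, DB (F.y 0) = 1 := by
    obtain ⟨D, hD⟩ := exists_dual F.y F.hy 0
    exact ⟨D, by rw [hD, if_pos rfl]⟩
  have hRex : ∀ w : Place k M, ∃ R : ℤ, IsDivisorial w n → Dat L (η : M) m0 F.z w R := by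
    intro w
    by_cases hw : IsDivisorial w n
    · obtain ⟨R, hR⟩ := exists_dat (L := L) hL (η : M) m0 F.z w hw
      exact ⟨R, fun _ => hR⟩
    · exact ⟨0, fun h => absurd h hw⟩
  choose R hR using hRex
  have hKex : ∀ w : Place k M, ∃ K : ℤ, IsDivisorial w n →
      ∀ (s q : ℕ), q ≤ m0 → ∀ (ω : (Fin n → Derivation k L L) → L),
      IsSec k L n (fun _ => False) S (m0 * s + q) 1 ω →
      ∀ θ : (Fin n → Derivation k M M) → M, IsPluriForm k M n (m0 * s + q) θ →
      (∀ (D : Fin n → Derivation k L L) (D' : Fin n → Derivation k M M),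
          (∀ j f, D' j (algebraMap L M f) = algebraMap L M (D j f)) →
          θ D' = algebraMap L M (ω D)) → ∀ c : Fin d → B,
      h0 * θ F.E = (η : M) ^ s * ∑ j, (u j : M) * (c j : M) →
      ∀ j, Ge w (-(s * R w) - K) (c j : M) := by
    intro w
    by_cases hw : IsDivisorial w n
    · obtain ⟨K, hK⟩ := Dat.sec hA hM F η hω0E S h0 u hu w hw (hR w hw)
      exact ⟨K, fun _ => hK⟩
    · exact ⟨0, fun h => absurd h hw⟩
  choose K hK using hKex
  obtain ⟨T, hT⟩ := almost h' hB hn F DB hDB η hω0E SM h0 hh0 u hu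
  -- the coefficients of the sections
  let Good : ℕ → B → Prop := fun s c => (∀ w, IsDivisorial w n → Ge w (-(s * R w) - K w) (c : M)) ∧
    ∀ w0 ∉ T, Ge w0 0 c
  have hcoef : ∀ (m N : ℕ), 1 ≤ m → HasIndep k L n N (IsSec k L n (fun _ => False) S m 1) →
      ∃ s q : ℕ, m = m0 * s + q ∧ q ≤ m0 ∧ ∃ C : Fin N → Fin d → B, LinearIndependent k C ∧
        ∀ l j, Good s (C l j) := by
    rintro m N hm ⟨ω', hind, hsec⟩
    obtain ⟨s, q, hsq, hq1, hq2⟩ : ∃ s q : ℕ, m = m0 * s + q ∧ 1 ≤ q ∧ q ≤ m0 := by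
      refine ⟨(m - 1) / m0, (m - 1) % m0 + 1, ?_, by omega, ?_⟩
      · have h2 := Nat.div_add_mod (m - 1) m0
        omega
      · have h2 := Nat.mod_lt (m - 1) hm0p
        omega
    refine ⟨s, q, hsq, hq2, ?_⟩
    choose θ hθ hθω using fun l => hSM m (ω' l) (hsec l)
    have hc : ∀ l, ∃ c : Fin d → B, h0 * θ l F.E = (η : M) ^ s * ∑ j, (u j : M) * (c j : M) := by
      intro l
      have h2 := hθ l
      rw [hsq] at h2
      exact hfam s q hq1 hq2 (θ l) h2
    choose C hC using hc
    refine ⟨C, ?_, fun l j => ⟨fun w hw => ?_, fun w0 hw0 => ?_⟩⟩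
    · rw [Fintype.linearIndependent_iff] at hind ⊢
      intro g hg
      refine hind g ?_
      have h2 : ∀ j, ∑ l, g l • C l j = 0 := by
        intro j
        have h3 := congrFun hg j
        rw [Finset.sum_apply] at h3
        exact h3
      -- the combination of the pull-backs vanishes
      have h3 : ∑ l, g l • θ l F.E = 0 := by
        have h4 : h0 * ∑ l, g l • θ l F.E = 0 := by
          rw [Finset.mul_sum]
          have h5 : ∀ l, h0 * (g l • θ l F.E) =
              ∑ j, (η : M) ^ s * ((u j : M) * ((g l • C l j : B) : M)) := by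
            intro l
            rw [mul_smul_comm, hC, ← Finset.mul_sum, ← mul_smul_comm, Finset.smul_sum]
            congr 1
            refine Finset.sum_congr rfl fun j _ => ?_
            rw [← mul_smul_comm]
            rfl
          rw [Finset.sum_congr rfl fun l _ => h5 l, Finset.sum_comm]
          refine Finset.sum_eq_zero fun j _ => ?_
          rw [← Finset.mul_sum, ← Finset.mul_sum, ← AddSubmonoidClass.coe_finsetSum, h2 j]
          simp
        exact (mul_eq_zero.1 h4).resolve_left hh0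
      funext D
      rw [Finset.sum_apply, Pi.zero_apply]
      apply (algebraMap L M).injective
      rw [map_zero, map_sum]
      choose D' hD' hD'2 hD'3 using fun j => pEXT k L M n hL (D j)
      have h5 : ∀ l, algebraMap L M ((g l • ω' l) D) =
          (Matrix.of fun i j => D' i (F.z j)).det ^ m * (g l • θ l F.E) := by
        intro l
        have h6 : algebraMap L M ((g l • ω' l) D) = g l • algebraMap L M (ω' l D) := by
          change algebraMap L M (g l • ω' l D) = _
          rw [Algebra.smul_def, map_mul, Algebra.smul_def, ← IsScalarTower.algebraMap_apply]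
        rw [h6, ← hθω l D D' hD', Pool.Agent.W460.PG.ONE.eval F.z F.hz F.E (fun i j => by
          rw [F.g]
          by_cases hij : i = j
          · rw [if_pos hij, if_pos hij.symm]
          · rw [if_neg hij, if_neg (Ne.symm hij)]) (hθ l).1 D', mul_smul_comm]
      rw [Finset.sum_congr rfl fun l _ => h5 l, ← Finset.mul_sum, h3, mul_zero]
    · have h2 := hθ l
      have h3 := hsec l
      rw [hsq] at h2 h3
      exact hK w hw s q hq2 (ω' l) h3 (θ l) h2.1 (hθω l) (C l) (hC l) j
    · exact hT w0 hw0 m s (θ l) (hθ l) (C l) (hC l) j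
  -- the minimal ratios
  have hmin : ∀ w0 : Place k B, ∃ z : ℤ, (∃ w e, (IsDivisorial w n ∧ Over w w0 e) ∧ R w = z * e) ∧
      ∀ w e, (IsDivisorial w n ∧ Over w w0 e) → z * e ≤ R w := by
    intro w0
    have hU : Over (UU h' w0) w0 1 :=
      ⟨Nat.one_pos, fun f => by rw [Nat.cast_one, one_mul]; exact UU_M h' w0 f⟩
    have hUd : IsDivisorial (UU h' w0) n := by
      have h1 := UU_divG h' w0 hB F.x F.hx.1 (div_curve w0)
      rwa [add_comm, hn] at h1
    refine exists_min (fun w e => IsDivisorial w n ∧ Over w w0 e) R r hr1 m0 (1 - vo w0 DB)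
      (fun w e hw => hw.2.1) (fun w e hw => ?_) (fun w e hw => ?_) (UU h' w0) ⟨hUd, hU⟩ ?_
    · have h2 := hR w hw.1
      rw [hηρ] at h2
      exact Dat.dvd h2
    · exact Dat.low hA hM F hω.1 hreg E hE hω0E DB hDB w hw.1 w0 e hw.2 (hR w hw.1)
    · have h2 := Dat.up h' F η hω0E DB hDB w0 (hR _ hUd)
      refine h2.trans (le_of_eq ?_)
      ring
  choose z hz1 hz2 using hmin
  choose wm em hwm hzm using hz1
  -- the degree is positive
  have hdeg : ∀ T' : Finset (Place k B), T ⊆ T' → 1 ≤ ∑ w0 ∈ T', z w0 := by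
    intro T' hTT
    by_contra hcon
    push Not at hcon
    let κ : ℕ := ∑ w0 ∈ T', (K (wm w0)).natAbs
    obtain ⟨m, N, hm, hind, hlt⟩ := hS (d * (κ + 1))
    rw [pow_zero, mul_one] at hlt
    obtain ⟨s, q, -, -, C, hC, hgood⟩ := hcoef m N hm hind
    let Dv : Place k B →₀ ℤ := ∑ w0 ∈ T', Finsupp.single w0 (s * z w0 + (K (wm w0)).natAbs)
    have hDv : ∀ w0, Dv w0 = if w0 ∈ T' then s * z w0 + (K (wm w0)).natAbs else 0 := by
      intro w0
      simp only [Dv, Finsupp.coe_finsetSum, Finset.sum_apply, Finsupp.single_apply]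
      rw [Finset.sum_ite_eq' T' w0]
    have hmem : ∀ l j, C l j ∈ LL Dv := by
      intro l j
      by_cases h00 : C l j = 0
      · rw [h00]; exact zero_mem _
      right
      intro w0
      rw [hDv]
      obtain ⟨hg1, hg2⟩ := hgood l j
      by_cases hw0 : w0 ∈ T'
      · rw [if_pos hw0]
        have h2 := (hg1 (wm w0) (hwm w0).1).resolve_left (fun h => h00 (Subtype.ext h))
        have h3 : (wm w0).ord ((C l j : B) : M) = em w0 * w0.ord (C l j) := (hwm w0).2.2 (C l j)
        rw [h3, hzm] at h2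
        have h4 : (1 : ℤ) ≤ em w0 := by exact_mod_cast (hwm w0).2.1
        have h5 : K (wm w0) ≤ ((K (wm w0)).natAbs : ℤ) := Int.le_natAbs
        have h6 : (0 : ℤ) ≤ ((K (wm w0)).natAbs : ℤ) := by positivity
        by_contra h7
        push Not at h7
        have h8 : w0.ord (C l j) + s * z w0 + (K (wm w0)).natAbs + 1 ≤ 0 := by linarith
        have h9 : (w0.ord (C l j) + s * z w0 + (K (wm w0)).natAbs + 1) * em w0 ≤ 0 * em w0 :=
          mul_le_mul_of_nonneg_right h8 (by linarith)
        have h10 : ((K (wm w0)).natAbs : ℤ) * 1 ≤ ((K (wm w0)).natAbs : ℤ) * em w0 :=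
          mul_le_mul_of_nonneg_left h4 h6
        nlinarith
      · rw [if_neg hw0, neg_zero]
        exact (hg2 w0 (fun h => hw0 (hTT h))).resolve_left h00
    have hddeg : ddeg Dv ≤ κ := by
      have h2 : ddeg Dv = ∑ w0 ∈ T', (s * z w0 + (K (wm w0)).natAbs) := by
        simp only [Dv]
        have h3 : ∀ X : Finset (Place k B), ddeg (∑ w0 ∈ X, Finsupp.single w0
            (s * z w0 + ((K (wm w0)).natAbs : ℤ))) =
            ∑ w0 ∈ X, (s * z w0 + ((K (wm w0)).natAbs : ℤ)) := by
          intro X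
          induction X using Finset.induction_on with
          | empty => simp [ddeg_zero]
          | insert a X ha ih =>
            rw [Finset.sum_insert ha, Finset.sum_insert ha, ddeg_add, ih, ddeg_single, deg_one]
            simp
        exact h3 T'
      rw [h2, Finset.sum_add_distrib, ← Finset.mul_sum]
      have h3 : (s : ℤ) * ∑ w0 ∈ T', z w0 ≤ s * 0 :=
        mul_le_mul_of_nonneg_left (by omega) (by positivity)
      simp only [κ]
      push_cast
      linarith
    have hfr := finrank_LL_le Dv κ hddeg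
    let C' : Fin N → (Fin d → LL Dv) := fun l j => ⟨C l j, hmem l j⟩
    have hC' : LinearIndependent k C' := by
      rw [Fintype.linearIndependent_iff] at hC ⊢
      intro g hg
      refine hC g ?_
      funext j
      have h2 := congrFun hg j
      rw [Finset.sum_apply] at h2 ⊢
      have h3 := congrArg (fun z : LL Dv => (z : B)) h2
      change ((∑ l, (g l • C' l) j : LL Dv) : B) = 0 at h3
      rw [AddSubmonoidClass.coe_finsetSum] at h3
      exact h3
    have h5 := hC'.fintype_card_le_finrank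
    rw [Fintype.card_fin, Module.finrank_pi_fintype, Finset.sum_const, Finset.card_univ,
      Fintype.card_fin, smul_eq_mul] at h5
    have h6 := Nat.mul_le_mul_left d hfr
    omega
  -- places which are trivial on the curve
  have htriv : ∀ w, IsDivisorial w n → (∀ b : B, w.ord (b : M) = 0) → 0 ≤ R w := by
    intro w hw htr
    by_contra hcon
    push Not at hcon
    obtain ⟨C1, hC1⟩ := hL1 S
    obtain ⟨m, N, hm, hind, hlt⟩ := hS (C1 * (m0 * (K w).natAbs + m0))
    rw [pow_zero, mul_one] at hlt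
    obtain ⟨s, q, hsq, hq, C, hC, hgood⟩ := hcoef m N hm hind
    have hN0 : 0 < N := by omega
    have hex : ∃ j, C ⟨0, hN0⟩ j ≠ 0 := by
      by_contra h2
      push Not at h2
      exact hC.ne_zero ⟨0, hN0⟩ (funext h2)
    obtain ⟨j, hj⟩ := hex
    have h2 := ((hgood ⟨0, hN0⟩ j).1 w hw).resolve_left (fun h => hj (Subtype.ext h))
    rw [htr] at h2
    have h3 : (s : ℤ) ≤ (K w).natAbs := by
      have h4 : K w ≤ ((K w).natAbs : ℤ) := Int.le_natAbs
      have h5 : (s : ℤ) * 1 ≤ s * (-R w) := mul_le_mul_of_nonneg_left (by omega) (by positivity)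
      linarith
    have h4 : s ≤ (K w).natAbs := by exact_mod_cast h3
    have h5 : m ≤ m0 * (K w).natAbs + m0 := by
      rw [hsq]
      exact add_le_add (Nat.mul_le_mul_left _ h4) hq
    have h6 := hC1 m N hm hind
    rw [pow_one] at h6
    have h7 := Nat.mul_le_mul_left C1 h5
    omega
  -- the negative places
  have hneg : {w0 : Place k B | z w0 < 0}.Finite := by
    have h2 : {w0 : Place k B | w0 ∉ T ∧ z w0 < 0}.Finite := by
      by_contra hinf
      obtain ⟨X, hX, hcard⟩ := Set.Infinite.exists_subset_card_eq hinf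
        (∑ w0 ∈ T, z w0).natAbs
      have h3 := hdeg (T ∪ X) Finset.subset_union_left
      rw [Finset.sum_union (by
        rw [Finset.disjoint_left]
        intro w0 h4 h5
        exact (hX h5).1 h4)] at h3
      have h4 : ∑ w0 ∈ X, z w0 ≤ ∑ w0 ∈ X, (-1 : ℤ) := Finset.sum_le_sum fun w0 hw0 => by
        have := (hX hw0).2
        omega
      rw [Finset.sum_const, hcard] at h4
      have h5 : (∑ w0 ∈ T, z w0) ≤ ((∑ w0 ∈ T, z w0).natAbs : ℤ) := Int.le_natAbs
      simp only [nsmul_eq_mul] at h4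
      linarith
    refine (h2.union T.finite_toSet).subset fun w0 hw0 => ?_
    by_cases hT0 : w0 ∈ T
    · exact Or.inr hT0
    · exact Or.inl ⟨hT0, hw0⟩
  -- the functions on the curve
  let T2 : Finset (Place k B) := T ∪ hneg.toFinset
  let Zd : Place k B →₀ ℤ := ∑ w0 ∈ T2, Finsupp.single w0 (z w0)
  have hZd : ∀ w0, Zd w0 = if w0 ∈ T2 then z w0 else 0 := by
    intro w0
    simp only [Zd, Finsupp.coe_finsetSum, Finset.sum_apply, Finsupp.single_apply]
    rw [Finset.sum_ite_eq' T2 w0]
  have hZle : ∀ w0, Zd w0 ≤ z w0 := by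
    intro w0
    rw [hZd]
    split_ifs with hw0
    · exact le_refl _
    · by_contra h2
      push Not at h2
      exact hw0 (Finset.mem_union_right _ (hneg.mem_toFinset.2 h2))
  have hZdeg : 1 ≤ ddeg Zd := by
    have h3 : ∀ X : Finset (Place k B), ddeg (∑ w0 ∈ X, Finsupp.single w0 (z w0)) =
        ∑ w0 ∈ X, z w0 := by
      intro X
      induction X using Finset.induction_on with
      | empty => simp [ddeg_zero]
      | insert a X ha ih =>
        rw [Finset.sum_insert ha, Finset.sum_insert ha, ddeg_add, ih, ddeg_single, deg_one]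
        simp
    simp only [Zd]
    rw [h3]
    exact hdeg T2 Finset.subset_union_left
  obtain ⟨t, ht, h1, hh1, h2, hh2, hne, htr⟩ := exists_two Zd hZdeg
  have hneM : (h2 : M) ≠ 0 := fun h => hne (Subtype.ext h)
  have hbound : ∀ b : B, b ∈ LL (t • Zd) → ∀ w, IsDivisorial w n → Ge w (-(t * R w)) (b : M) := by
    intro b hb w hw
    by_cases hb0 : b = 0
    · left
      rw [hb0]; rfl
    right
    have hb' := hb.resolve_left hb0
    by_cases hnt : ∃ x : B, w.ord (algebraMap B M x) ≠ 0
    · obtain ⟨e, w0, hov⟩ := exists_over (K := B) w hnt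
      have h3 : w.ord (b : M) = e * w0.ord b := hov.2 b
      rw [h3]
      have h4 := hb' w0
      have h5 : (t • Zd) w0 = t * Zd w0 := by
        rw [Finsupp.smul_apply, nsmul_eq_mul]
      rw [h5] at h4
      have h6 := hz2 w0 w e ⟨hw, hov⟩
      have h7 : (t : ℤ) * Zd w0 ≤ t * z w0 := mul_le_mul_of_nonneg_left (hZle w0) (by positivity)
      have h8 : (t : ℤ) * (z w0 * e) ≤ t * R w := mul_le_mul_of_nonneg_left h6 (by positivity)
      have h9 : (e : ℤ) * -(t * z w0) ≤ e * w0.ord b :=
        mul_le_mul_of_nonneg_left (by linarith) (by positivity)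
      linarith
    · push Not at hnt
      rw [show w.ord (b : M) = 0 from hnt b]
      have h3 := htriv w hw hnt
      have h4 : 0 ≤ (t : ℤ) * R w := mul_nonneg (by positivity) h3
      linarith
  refine kod_of_norm hL F.z F.hz F.E F.g (m0 * t) (Nat.mul_pos hm0p ht) ((η : M) ^ t)
    (pow_ne_zero _ hηM) (h1 : M) (h2 : M) hneM ?_ ?_
  · intro halg
    apply htr
    have h3 : IsAlgebraic k (algebraMap B M (h1 / h2)) := by
      rw [map_div₀]
      exact halg
    exact (isAlgebraic_algebraMap_iff (algebraMap B M).injective).1 h3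
  · intro b hb v hv D hD D' hDD w e hov
    have hw : IsDivisorial w n := Pool.Agent.W140.PG.REG2.div_up hov hv
    have h3 := (hR w hw).ge hov hD hDD
    have h4 := h3.pow t
    have h5 : Ge w (-(t * R w)) b := by
      rcases hb with rfl | rfl
      · exact hbound h1 hh1 w hw
      · exact hbound h2 hh2 w hw
    have h6 := h5.mul h4
    have h7 : b * ((η : M) * (Matrix.of fun a b => D' a (F.z b)).det ^ m0) ^ t =
        b * ((η : M) ^ t * (Matrix.of fun a b => D' a (F.z b)).det ^ (m0 * t)) := by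
      rw [mul_pow, ← pow_mul]
    rw [h7] at h6
    simpa using h6

end

end Pool.Agent.H63.YC
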