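import Pool.Agent.H63.YC.Ce
import Pool.Graph.R_seed8.W619.Y.KodT

/-! Norms of forms. -/

set_option autoImplicit false
set_option linter.overlappingInstances false
set_option linter.unusedSectionVars false

open FF IntermediateField Pool.Agent.W619.PQ Pool.Agent.W619.PL Pool.Agent.W619.TW
  Pool.Agent.W603.LV Pool.Agent.W619.Y

namespace Pool.Agent.H63.YC

section

variable {k K F : Type} [Field k] [CharZero k] [Field K] [Field F] [Algebra k K] [Algebra k F]
  [Algebra K F] [IsScalarTower k K F] [FiniteDimensional K F]

/-- the norm of an element which is regular at all places over `q` is regular -/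
theorem norm_reg (q : Place k K) (z : F)
    (hz : ∀ (w : Place k F) (e : ℕ), Over w q e → Ge w 0 z) : q.Reg (Algebra.norm K z) := by
  let iA : Algebra q.O F := algO q
  have h1 : IsIntegral q.O z := isIntegral_of_reg q z hz
  have : IsScalarTower q.O K F := IsScalarTower.of_algebraMap_eq fun _ => rfl
  have h2 : IsIntegral q.O (Algebra.norm K z) := Algebra.isIntegral_norm K h1
  obtain ⟨a, ha⟩ := IsIntegrallyClosed.isIntegral_iff.1 h2
  rw [← ha]
  exact a.2

end

section

open Polynomial

/-- A polynomial with values in the infinite subfield `k` at all elements of `k` has coefficients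
in `k`. -/
theorem lift_of_eval {k K : Type} [Field k] [Infinite k] [Field K] [Algebra k K] (P : K[X])
    (g : k → k) (hP : ∀ c : k, P.eval (algebraMap k K c) = algebraMap k K (g c)) :
    ∃ Q : k[X], P = Q.map (algebraMap k K) := by
  classical
  obtain ⟨s, hs⟩ := Infinite.exists_subset_card_eq k (P.natDegree + 1)
  let Q : k[X] := Lagrange.interpolate s id g
  have hinj : Set.InjOn (id : k → k) s := Function.injective_id.injOn
  have hQ : Q.degree < s.card := Lagrange.degree_interpolate_lt g hinj
  refine ⟨Q, ?_⟩
  have hmap : Function.Injective (algebraMap k K) := (algebraMap k K).injective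
  refine eq_of_degrees_lt_of_eval_finset_eq (s.image (algebraMap k K)) ?_ ?_ ?_
  · rw [Finset.card_image_of_injective _ hmap, hs]
    refine degree_le_natDegree.trans_lt ?_
    exact_mod_cast Nat.lt_succ_self _
  · rw [Finset.card_image_of_injective _ hmap, degree_map]
    exact hQ
  · intro x hx
    obtain ⟨c, hc, rfl⟩ := Finset.mem_image.1 hx
    rw [hP, eval_map_algebraMap, aeval_algebraMap_apply]
    congr 1
    have h1 := Lagrange.eval_interpolate_at_node (r := g) hinj hc
    simp only [id] at h1
    rw [← h1]
    rfl

end

section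

variable {k K F : Type} [Field k] [CharZero k] [IsAlgClosed k] [Field K] [Field F] [Algebra k K]
  [Algebra k F] [Algebra K F] [IsScalarTower k K F] [FiniteDimensional K F]

theorem const_of_alg {z : K} (hz : IsAlgebraic k z) : ∃ c : k, z = algebraMap k K c := by
  have h2 := IsAlgClosed.degree_eq_one_of_irreducible k (minpoly.irreducible hz.isIntegral)
  obtain ⟨c, hc⟩ := minpoly.mem_range_of_degree_eq_one k z h2
  exact ⟨c, hc.symm⟩

/-- The norms of the translates of a nonconstant element are not all constant. -/
theorem exists_norm (f : F) (hf : Transcendental k f) :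
    ∃ c : k, Transcendental k (Algebra.norm K (f + algebraMap k F c)) := by
  classical
  by_contra hcon
  push Not at hcon
  have h1 : ∀ c : k, ∃ c' : k, Algebra.norm K (f + algebraMap k F c) = algebraMap k K c' := by
    intro c
    have h2 := hcon c
    unfold Transcendental at h2
    push Not at h2
    exact const_of_alg h2
  choose g hg using h1
  let P := (Algebra.lmul K F f).charpoly
  have hP : ∀ c : k, P.eval (algebraMap k K c) =
      algebraMap k K ((-1) ^ Module.finrank K F * g (-c)) := by
    intro c
    rw [LinearMap.eval_charpoly]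
    have h2 : algebraMap K (Module.End K F) (algebraMap k K c) - Algebra.lmul K F f =
        Algebra.lmul K F (-(f + algebraMap k F (-c))) := by
      have h3 : algebraMap K (Module.End K F) (algebraMap k K c) =
          Algebra.lmul K F (algebraMap k F c) := by
        rw [IsScalarTower.algebraMap_apply k K F, AlgHom.commutes]
      rw [h3, ← map_sub]
      congr 1
      rw [map_neg]
      ring
    rw [h2]
    have h4 : (Algebra.lmul K F (-(f + algebraMap k F (-c)))).det =
        Algebra.norm K (-(f + algebraMap k F (-c))) := rfl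
    rw [h4]
    have h5 : -(f + algebraMap k F (-c)) = algebraMap K F (-1) * (f + algebraMap k F (-c)) := by
      have h6 : algebraMap K F (-1) = -1 := by rw [map_neg, map_one]
      rw [h6]
      ring
    rw [h5, map_mul, Algebra.norm_algebraMap, hg, map_mul, map_pow, map_neg, map_one]
  have : Infinite k := IsAlgClosed.instInfinite
  obtain ⟨Q, hQ⟩ := lift_of_eval P (fun c => (-1) ^ Module.finrank K F * g (-c)) hP
  apply hf
  refine ⟨Q, ?_, ?_⟩
  · rintro rfl
    rw [Polynomial.map_zero] at hQ
    exact (LinearMap.charpoly_monic (Algebra.lmul K F f)).ne_zero hQ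
  · have h2 : Polynomial.aeval f P = 0 := Algebra.aeval_self_charpoly_lmul f
    rw [hQ, Polynomial.aeval_map_algebraMap] at h2
    exact h2

end

section

variable {k M : Type} [Field k] [CharZero k] [Field M] [Algebra k M] {n : ℕ}

/-- change of coordinates -/
theorem det_chain (z : Fin n → M) (hz : IsTranscendenceBasis k z) (F : Fin n → Derivation k M M)
    (hF : ∀ i j, F i (z j) = if i = j then 1 else 0) (D : Fin n → Derivation k M M)
    (y : Fin n → M) :
    (Matrix.of fun a b => D a (y b)).det =
      (Matrix.of fun a b => D a (z b)).det * (Matrix.of fun a b => F a (y b)).det := by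
  rw [← Matrix.det_mul]
  congr 1
  ext a b
  rw [Matrix.mul_apply]
  simp only [Matrix.of_apply]
  have h3 := der_zero (K := M) (L := M) (D a - ∑ c, D a (z c) • F c) z hz (fun l => by
    change (D a - ∑ c, D a (z c) • F c) (z l) = 0
    rw [Derivation.sub_apply, Pool.Agent.W460.PG.ONE.der_sum]
    simp [hF]) (y b)
  change (D a - ∑ c, D a (z c) • F c) (y b) = 0 at h3
  rw [Derivation.sub_apply, Pool.Agent.W460.PG.ONE.der_sum, sub_eq_zero] at h3
  exact h3

theorem det_dual (z : Fin n → M) (F : Fin n → Derivation k M M)
    (hF : ∀ i j, F i (z j) = if i = j then 1 else 0) :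
    (Matrix.of fun a b => F a (z b)).det = 1 := by
  have h1 : (Matrix.of fun a b => F a (z b)) = 1 := by
    ext a b
    rw [Matrix.of_apply, hF, Matrix.one_apply]
  rw [h1, Matrix.det_one]

end

section

variable {k L M : Type} [Field k] [CharZero k] [IsAlgClosed k] [Field L] [Field M] [Algebra k L]
  [Algebra k M] [Algebra L M] [IsScalarTower k L M] [FiniteDimensional L M] {n : ℕ}

/-- **Norms of forms.** -/
theorem kod_of_norm (hn : Algebra.trdeg k L = n) (z : Fin n → M) (hz : IsTranscendenceBasis k z)
    (F : Fin n → Derivation k M M) (hF : ∀ i j, F i (z j) = if i = j then 1 else 0)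
    (m : ℕ) (hm : 1 ≤ m) (g : M) (hg : g ≠ 0) (h1 h2 : M) (hne : h2 ≠ 0)
    (hh : Transcendental k (h1 / h2))
    (hreg : ∀ h : M, h = h1 ∨ h = h2 → ∀ v : Place k L, IsDivisorial v n →
      ∀ D : Fin n → Derivation k L L, (∀ j, Pres v (D j)) → ∀ D' : Fin n → Derivation k M M,
      (∀ j f, D' j (algebraMap L M f) = algebraMap L M (D j f)) → ∀ (w : Place k M) (e : ℕ),
      Over w v e → Ge w 0 (h * (g * (Matrix.of fun a b => D' a (z b)).det ^ m))) :
    KodTr k L n 1 := by
  classical
  choose ext hext hext2 hext3 using pEXT k L M n hn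
  obtain ⟨c, hc⟩ := exists_norm (K := L) (h1 / h2) hh
  obtain ⟨y, E, hy, hE⟩ := Pool.Agent.Y172.exists_crd hn
  let T : (Fin n → Derivation k L L) → M := fun D =>
    g * (Matrix.of fun a b => ext (D a) (z b)).det ^ m
  have hT0 : T E ≠ 0 := by
    refine mul_ne_zero hg (pow_ne_zero _ ?_)
    intro h0
    have h3 := det_chain z hz F hF (fun a => ext (E a)) (fun b => algebraMap L M (y b))
    rw [h0, zero_mul] at h3
    have h4 : (Matrix.of fun a b => ext (E a) (algebraMap L M (y b))) = 1 := by
      ext a b
      rw [Matrix.of_apply, hext, hE, Matrix.one_apply]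
      split_ifs <;> simp
    rw [h4, Matrix.det_one] at h3
    exact one_ne_zero h3
  have hTlin : ∀ (X : Matrix (Fin n) (Fin n) L) (D : Fin n → Derivation k L L),
      T (fun i => ∑ j, X i j • D j) = algebraMap L M (X.det ^ m) * T D := by
    intro X D
    have e1 : ∀ j, ext (∑ l, X j l • D l) = ∑ l, (algebraMap L M (X j l)) • ext (D l) := by
      intro j
      symm
      apply hext2
      intro f
      rw [Pool.Agent.W460.PG.ONE.der_sum, Pool.Agent.W460.PG.ONE.der_sum, map_sum]
      refine Finset.sum_congr rfl fun l _ => ?_
      rw [hext, map_mul]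
    have e2 : (Matrix.of fun a b => ext (∑ l, X a l • D l) (z b)) =
        (X.map (algebraMap L M)) * (Matrix.of fun a b => ext (D a) (z b)) := by
      ext a b
      simp only [Matrix.of_apply, Matrix.mul_apply, Matrix.map_apply]
      rw [e1, Pool.Agent.W460.PG.ONE.der_sum]
    have e3 : (X.map (algebraMap L M)).det = algebraMap L M X.det := by
      rw [RingHom.map_det]
      rfl
    change g * (Matrix.of fun a b => ext (∑ l, X a l • D l) (z b)).det ^ m = _
    rw [e2, Matrix.det_mul, e3, map_pow]
    change _ = _ * (g * (Matrix.of fun a b => ext (D a) (z b)).det ^ m)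
    ring
  let h' : Fin 2 → M := ![h2, h1 + algebraMap k M c * h2]
  have hh0 : ∀ l, h' l ≠ 0 := by
    intro l
    refine Fin.cases ?_ (fun l => ?_) l
    · exact hne
    · have hl : l = 0 := Subsingleton.elim _ _
      subst hl
      change h1 + algebraMap k M c * h2 ≠ 0
      intro h0
      have h3 : h1 / h2 = algebraMap k M (-c) := by
        rw [map_neg]
        field_simp
        linear_combination h0
      exact hh (h3 ▸ isAlgebraic_algebraMap _)
  have hr1 : 1 ≤ Module.finrank L M := Module.finrank_pos
  have hnorm0 : ∀ f : M, f ≠ 0 → Algebra.norm L f ≠ 0 := fun f hf => Algebra.norm_ne_zero_iff.2 hf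
  refine ⟨m * Module.finrank L M, Nat.mul_pos hm hr1, fun l D => Algebra.norm L (h' l * T D),
    fun l => ⟨fun X D => ?_, fun v hv _ D hD => ?_, fun v _ hv => hv.elim⟩, E, fun l => ?_, ?_⟩
  · beta_reduce
    rw [hTlin]
    have h3 : h' l * (algebraMap L M (X.det ^ m) * T D) =
        algebraMap L M (X.det ^ m) * (h' l * T D) := by ring
    rw [h3, map_mul, Algebra.norm_algebraMap, ← pow_mul]
  · apply Pool.Agent.W721.PG.EFF2.dom_of_reg
    refine norm_reg v _ fun w e hw => ?_
    have h3 : Ge w 0 (h1 * T D) := hreg h1 (Or.inl rfl) v hv D hD (fun j => ext (D j))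
      (fun j f => hext (D j) f) w e hw
    have h4 : Ge w 0 (h2 * T D) := hreg h2 (Or.inr rfl) v hv D hD (fun j => ext (D j))
      (fun j f => hext (D j) f) w e hw
    refine Fin.cases ?_ (fun l => ?_) l
    · exact h4
    · have hl : l = 0 := Subsingleton.elim _ _
      subst hl
      have h5 : h' (Fin.succ 0) * T D = h1 * T D + algebraMap k M c * (h2 * T D) := by
        change (h1 + algebraMap k M c * h2) * T D = _
        ring
      rw [h5]
      have h6 := (Ge.const (P := w) c).mul h4
      rw [add_zero] at h6
      exact h3.add h6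
  · exact hnorm0 _ (mul_ne_zero (hh0 l) hT0)
  · have h3 : (fun l : Fin 1 => Algebra.norm L (h' l.succ * T E) / Algebra.norm L (h' 0 * T E)) =
        fun _ => Algebra.norm L (h1 / h2 + algebraMap k M c) := by
      funext l
      have hl : l = 0 := Subsingleton.elim _ _
      subst hl
      have h31 : ∀ x, Algebra.norm L (x * T E) = Algebra.norm L x * Algebra.norm L (T E) :=
        fun x => map_mul _ _ _
      rw [h31, h31, mul_div_mul_right _ _ (hnorm0 _ hT0)]
      have h4 : h' (Fin.succ 0) = (h1 / h2 + algebraMap k M c) * h' 0 := by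
        change h1 + algebraMap k M c * h2 = (h1 / h2 + algebraMap k M c) * h2
        field_simp
      rw [h4, map_mul, mul_div_assoc, div_self (hnorm0 _ (hh0 0)), mul_one]
    change AlgebraicIndependent k fun l : Fin 1 => Algebra.norm L (h' l.succ * T E) /
      Algebra.norm L (h' 0 * T E)
    rw [h3]
    exact algebraicIndependent_unique_type_iff.2 hc

end

end Pool.Agent.H63.YC
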