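import Pool.Agent.H63.YC.Nrm
import Pool.Agent.H63.YC.Fam
import Pool.Graph.R_seed8.Y692.NT.Tr

/-! The order of the canonical forms at a place of a product `Y × C` which dominates a variety. -/

set_option autoImplicit false
set_option linter.overlappingInstances false
set_option linter.unusedSectionVars false

open FF IntermediateField Pool.Agent.W619.PQ Pool.Agent.W619.PL Pool.Agent.W619.TW
  Pool.Agent.W603.LV Pool.Agent.W619.Y Q36.GP
open Pool.Agent.W460.PG.ONE (VV finrank_VV eval)

namespace Pool.Agent.H63.YC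

section

variable {k L M : Type} [Field k] [CharZero k] [IsAlgClosed k] [Field L] [Field M] [Algebra k L]
  [Algebra k M] [Algebra L M] [IsScalarTower k L M] [FiniteDimensional L M] {n : ℕ}

variable (L) in
/-- The data at a place: `R` is the order along `w` of the form given by `η` and the coordinates `z`,
on the vector fields of `L` which are a regular frame along the trace of `w`. -/
def Dat (η : M) (m0 : ℕ) (z : Fin n → M) (w : Place k M) (R : ℤ) : Prop :=
  ∃ (v : Place k L) (ε : ℕ) (y : Fin n → L) (E : Fin n → Derivation k L L)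
    (E' : Fin n → Derivation k M M) (i0 : Fin n), Over w v ε ∧ ε ≤ Module.finrank L M ∧
    IsDivisorial v n ∧ IsTranscendenceBasis k y ∧ (∀ i j, E i (y j) = if i = j then 1 else 0) ∧
    v.ord (y i0) = 1 ∧ (∀ i, v.Reg (y i)) ∧ (∀ i, Pres v (E i)) ∧
    (∀ j f, E' j (algebraMap L M f) = algebraMap L M (E j f)) ∧
    R = w.ord (η * (Matrix.of fun a b => E' a (z b)).det ^ m0)

theorem exists_dat [Algebra.EssFiniteType k L] (hn : Algebra.trdeg k L = n) (η : M) (m0 : ℕ)
    (z : Fin n → M) (w : Place k M) (hw : IsDivisorial w n) : ∃ R, Dat L η m0 z w R := by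
  classical
  obtain ⟨ε, v, hwv⟩ := Pool.Agent.W73.PG.PULL.exists_over' (K := L) w
  have hv := pDIVI k L M n v w ε hwv hw
  obtain ⟨y, E, i0, hy, hE, h1, hr, hp⟩ := pFRAME k L n hn (fun y hy => fin_over y hy) v hv
  choose ext hext hext2 hext3 using pEXT k L M n hn
  exact ⟨_, v, ε, y, E, fun a => ext (E a), i0, hwv, Pool.Agent.Y692.NT.over_le hwv, hv, hy, hE, h1,
    hr, hp, fun j f => hext (E j) f, rfl⟩

variable {η : M} {m0 : ℕ} {z : Fin n → M} {w : Place k M} {R : ℤ}

/-- the expansion of vector fields of `L` in a frame -/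
theorem exp_ext {y : Fin n → L} (hy : IsTranscendenceBasis k y) {E D : Fin n → Derivation k L L}
    {E' D' : Fin n → Derivation k M M} (hE : ∀ i j, E i (y j) = if i = j then 1 else 0)
    (hE' : ∀ j f, E' j (algebraMap L M f) = algebraMap L M (E j f))
    (hD' : ∀ j f, D' j (algebraMap L M f) = algebraMap L M (D j f)) (z : Fin n → M) :
    (Matrix.of fun a b => D' a (z b)).det = algebraMap L M (Matrix.of fun a b => D a (y b)).det *
      (Matrix.of fun a b => E' a (z b)).det := by
  have hyM : IsTranscendenceBasis k (fun b => algebraMap L M (y b)) := hy.algebraMap_comp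
  have h1 := det_chain (fun b => algebraMap L M (y b)) hyM E' (fun i j => by
    rw [hE', hE]
    split_ifs <;> simp) D' z
  rw [h1]
  congr 1
  rw [RingHom.map_det]
  congr 1
  ext a b
  rw [Matrix.of_apply, hD']
  rfl

/-- The order on arbitrary regular vector fields. -/
theorem Dat.ge (h : Dat L η m0 z w R) {v : Place k L} {e : ℕ} (hwv : Over w v e)
    {D : Fin n → Derivation k L L} (hD : ∀ j, Pres v (D j)) {D' : Fin n → Derivation k M M}
    (hDD : ∀ j f, D' j (algebraMap L M f) = algebraMap L M (D j f)) :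
    Ge w R (η * (Matrix.of fun a b => D' a (z b)).det ^ m0) := by
  obtain ⟨v', ε, y, E, E', i0, hov, -, -, hy, hE, -, hr, -, hE', rfl⟩ := h
  have hvv : v' = v := (Pool.Agent.Y172.over_unique' hov hwv).1
  subst hvv
  rw [exp_ext hy hE hE' hDD z]
  have h1 : Ge v' 0 (Matrix.of fun a b => D a (y b)).det :=
    Pool.Agent.W619.PQ.ge_det v' _ fun a b => hD a _ (hr b)
  have h2 : Ge w 0 (algebraMap L M (Matrix.of fun a b => D a (y b)).det) := hwv.reg.2 h1
  have h3 := (h2.pow m0).mul (ge_self w (η * (Matrix.of fun a b => E' a (z b)).det ^ m0))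
  have h4 : algebraMap L M (Matrix.of fun a b => D a (y b)).det ^ m0 *
      (η * (Matrix.of fun a b => E' a (z b)).det ^ m0) =
      η * (algebraMap L M (Matrix.of fun a b => D a (y b)).det *
      (Matrix.of fun a b => E' a (z b)).det) ^ m0 := by ring
  rw [h4] at h3
  simpa using h3

theorem det_ne {y : Fin n → L} {E : Fin n → Derivation k L L}
    {E' : Fin n → Derivation k M M} (hE : ∀ i j, E i (y j) = if i = j then 1 else 0)
    (hE' : ∀ j f, E' j (algebraMap L M f) = algebraMap L M (E j f)) (z : Fin n → M)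
    (hz : IsTranscendenceBasis k z) (F : Fin n → Derivation k M M)
    (hF : ∀ i j, F i (z j) = if i = j then 1 else 0) :
    (Matrix.of fun a b => E' a (z b)).det * (Matrix.of fun a b => F a (algebraMap L M (y b))).det =
      1 := by
  have h3 := det_chain z hz F hF E' (fun b => algebraMap L M (y b))
  have h4 : (Matrix.of fun a b => E' a (algebraMap L M (y b))) = 1 := by
    ext a b
    rw [Matrix.of_apply, hE', hE, Matrix.one_apply]
    split_ifs <;> simp
  rw [h4, Matrix.det_one] at h3
  exact h3.symm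

end

section

variable {k M : Type} [Field k] [CharZero k] [IsAlgClosed k] [Field M] [Algebra k M]
  {A B : IntermediateField k M} {p n : ℕ} [hBF : IsFF k B]

/-- vector fields in terms of a frame -/
theorem der_exp (z : Fin n → M) (hz : IsTranscendenceBasis k z) (F : Fin n → Derivation k M M)
    (hF : ∀ i j, F i (z j) = if i = j then 1 else 0) (D : Derivation k M M) (t : M) :
    D t = ∑ c, D (z c) * F c t := by
  have h3 := der_zero (K := M) (L := M) (D - ∑ c, D (z c) • F c) z hz (fun l => by
    change (D - ∑ c, D (z c) • F c) (z l) = 0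
    rw [Derivation.sub_apply, Pool.Agent.W460.PG.ONE.der_sum]
    simp [hF]) t
  change (D - ∑ c, D (z c) • F c) t = 0 at h3
  rw [Derivation.sub_apply, Pool.Agent.W460.PG.ONE.der_sum, sub_eq_zero] at h3
  exact h3

theorem frm_inl (F : Q36.GP.Frm A B p 1 n) (D : Derivation k M M) (l : Fin p) :
    D (F.z (F.ε (Sum.inl l))) = D (F.x l : M) := by
  rw [der_exp F.z F.hz F.E F.g D (F.x l : M), ← F.ε.sum_comp, Fintype.sum_sum_type]
  simp [F.e2, F.f1]

theorem frm_inr (F : Q36.GP.Frm A B p 1 n) (D : Derivation k M M) :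
    D (F.z (F.ε (Sum.inr 0))) = D (F.y 0 : M) := by
  rw [der_exp F.z F.hz F.E F.g D (F.y 0 : M), ← F.ε.sum_comp, Fintype.sum_sum_type]
  have h1 : ∀ i, F.E (F.ε (Sum.inl i)) (F.y 0 : M) = 0 := fun i => F.e1 i _
  have h2 : F.E (F.ε (Sum.inr 0)) (F.y 0 : M) = 1 := by rw [F.f2, if_pos rfl]
  simp [h1, h2]

theorem trans_y (F : Q36.GP.Frm A B p 1 n) : Transcendental k (F.y 0) :=
  F.hy.1.transcendental 0

/-- **The logarithmic estimate.** -/
theorem ge_log2 [Algebra.EssFiniteType k A] (hA : Algebra.trdeg k A = p)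
    (hM : Algebra.trdeg k M = n) (F : Q36.GP.Frm A B p 1 n) {m0 : ℕ}
    {ω : (Fin p → Derivation k A A) → A} (hω : IsPluriForm k A p m0 ω)
    (hreg : ∀ u : Place k A, IsDivisorial u p → RegularAt u p ω) (E : Fin p → Derivation k A A)
    (hE : ∀ i j, E i (F.x j) = if i = j then 1 else 0) (DB : Derivation k B B)
    (hDB : DB (F.y 0) = 1) (w : Place k M) (hw : IsDivisorial w n) (w0 : Place k B) (e : ℕ)
    (hov : Over w w0 e) (D : Fin n → Derivation k M M) (hD : ∀ j z, w.Reg (D j z / z)) :
    Ge w (m0 * (e * (1 - vo w0 DB)))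
      ((ω E : M) * (Matrix.of fun a b => D a (F.z b)).det ^ m0) := by
  classical
  have hDB0 : DB ≠ 0 := by
    rintro rfl
    exact zero_ne_one hDB
  obtain ⟨Z, zz, hzz, hZ, hgeZ⟩ := pYLOC.{0, 0} k M A p n m0 hA hM (fun y hy => fin_over y hy) ω hω
    hreg F.x E F.hx hE w hw
  -- the uniformizer on the curve
  set t : B := unif w0 with ht
  have ht1 : w0.ord t = 1 := ord_unif w0
  have ht0 : t ≠ 0 := by
    intro h
    rw [h, w0.ord_zero] at ht1
    omega
  obtain ⟨r, hr1, hr2⟩ := ratio' (k := k) (K := M) (trans_y F) t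
  have hr : r = DB t := by
    rw [hr1 DB, hDB, mul_one]
  have hr0 : r ≠ 0 := by
    rw [hr]
    exact der_pi_ne_zero hDB0 w0 ht1
  have hrM : (r : M) ≠ 0 := fun h => hr0 (Subtype.ext h)
  have htM : (t : M) ≠ 0 := fun h => ht0 (Subtype.ext h)
  have hDy : ∀ j, D j (F.y 0 : M) = ((t : M) / (r : M)) * (D j (t : M) / (t : M)) := by
    intro j
    have h1 : D j (t : M) = (r : M) * D j (F.y 0 : M) := hr2 (D j)
    rw [h1]
    field_simp
  -- the matrices
  let V : Matrix (Fin p ⊕ Fin 1) (Fin p ⊕ Fin 1) M := Matrix.of fun a b =>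
    Sum.elim (fun c => D (F.ε a) (zz c)) (fun _ => D (F.ε a) (t : M) / (t : M)) b
  let T : Matrix (Fin p ⊕ Fin 1) (Fin p ⊕ Fin 1) M :=
    Matrix.fromBlocks Z.transpose 0 0 (Matrix.of fun _ _ => (t : M) / (r : M))
  have hVT : (Matrix.of fun a b => D (F.ε a) (F.z (F.ε b))) = V * T := by
    ext a b
    rw [Matrix.mul_apply, Matrix.of_apply, Fintype.sum_sum_type]
    rcases b with l | l
    · rw [frm_inl]
      have h1 : D (F.ε a) ((F.x l : A) : M) = ∑ c, Z l c * D (F.ε a) (zz c) := hZ (D (F.ε a)) l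
      rw [h1]
      simp [V, T, mul_comm]
    · have hl : l = 0 := Subsingleton.elim _ _
      subst hl
      rw [frm_inr, hDy]
      simp [V, T, mul_comm]
  have hdet : (Matrix.of fun a b => D a (F.z b)).det = V.det * (Z.det * ((t : M) / (r : M))) := by
    have h1 : (Matrix.of fun a b => D a (F.z b)).det =
        (Matrix.of fun a b => D (F.ε a) (F.z (F.ε b))).det := by
      rw [← Matrix.det_submatrix_equiv_self F.ε]
      rfl
    rw [h1, hVT, Matrix.det_mul, Matrix.det_fromBlocks_zero₂₁, Matrix.det_transpose]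
    congr 2
    rw [Matrix.det_fin_one, Matrix.of_apply]
  have hV : Ge w 0 V.det := by
    refine Pool.Agent.W619.PQ.ge_det w _ fun a b => ?_
    rcases b with l | l
    · change Ge w 0 (D (F.ε a) (zz l))
      have h1 : Ge w 0 (D (F.ε a) (zz l) / zz l) := hD _ _
      have h2 := h1.mul (hzz l : Ge w 0 (zz l))
      by_cases h3 : zz l = 0
      · left
        rw [h3, map_zero]
      · rwa [div_mul_cancel₀ _ h3, add_zero] at h2
    · exact hD _ _
  have hord : w.ord ((t : M) / (r : M)) = e * (1 - vo w0 DB) := by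
    have h1 : w.ord (t : M) = e * w0.ord t := hov.2 t
    have h2 : w.ord (r : M) = e * w0.ord r := hov.2 r
    have h3 : w0.ord r = vo w0 DB := by rw [hr]; rfl
    rw [w.ord_div htM hrM, h1, h2, h3, ht1]
    ring
  have h5 := (hgeZ.mul (hV.pow m0)).mul ((ge_self w ((t : M) / (r : M))).pow m0)
  rw [hord] at h5
  have h6 : (ω E : M) * (Matrix.of fun a b => D a (F.z b)).det ^ m0 =
      (ω E : M) * Z.det ^ m0 * V.det ^ m0 * ((t : M) / (r : M)) ^ m0 := by
    rw [hdet]
    ring
  rw [h6]
  refine h5.mono ?_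
  simp

end

section

variable {k L M : Type} [Field k] [CharZero k] [IsAlgClosed k] [Field L] [Field M] [Algebra k L]
  [Algebra k M] [Algebra L M] [IsScalarTower k L M] [FiniteDimensional L M]
  {A B : IntermediateField k M} {p n : ℕ} [hBF : IsFF k B]

/-- the lower bound at a place over a place of the curve -/
theorem Dat.low [Algebra.EssFiniteType k A] (hA : Algebra.trdeg k A = p)
    (hM : Algebra.trdeg k M = n) (F : Q36.GP.Frm A B p 1 n) {m0 : ℕ}
    {ω : (Fin p → Derivation k A A) → A} (hω : IsPluriForm k A p m0 ω)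
    (hreg : ∀ u : Place k A, IsDivisorial u p → RegularAt u p ω) (E : Fin p → Derivation k A A)
    (hE : ∀ i j, E i (F.x j) = if i = j then 1 else 0) (h0 : ω E ≠ 0) (DB : Derivation k B B)
    (hDB : DB (F.y 0) = 1) (w : Place k M) (hw : IsDivisorial w n) (w0 : Place k B) (e : ℕ)
    (hov : Over w w0 e) {R : ℤ} (hR : Dat L (ω E : M) m0 F.z w R) :
    (m0 : ℤ) * (e * (1 - vo w0 DB) - Module.finrank L M) ≤ R := by
  classical
  obtain ⟨v, ε, y, E1, E', i0, hwv, hε, hv, hy, hE1, h1, hr, hp, hE', rfl⟩ := hR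
  have hy0 : y i0 ≠ 0 := by
    intro h
    rw [h, v.ord_zero] at h1
    omega
  have hyM : algebraMap L M (y i0) ≠ 0 := by simpa using hy0
  -- the logarithmic frame
  let E2 : Fin n → Derivation k L L := fun j => (if j = i0 then y i0 else 1) • E1 j
  let D : Fin n → Derivation k M M := fun j => algebraMap L M (if j = i0 then y i0 else 1) • E' j
  have hDE : ∀ j f, D j (algebraMap L M f) = algebraMap L M (E2 j f) := by
    intro j f
    change algebraMap L M _ * E' j (algebraMap L M f) = algebraMap L M (_ * E1 j f)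
    rw [hE', map_mul]
  have hE2 : ∀ j x, v.Reg (E2 j x / x) := by
    intro j
    refine log_of_pres v (E2 j) (fun x hx => ?_) hy0 h1 ?_
    · change Ge v 0 ((if j = i0 then y i0 else 1) * E1 j x)
      have h2 : Ge v 0 (E1 j x) := hp j x hx
      have h3 : Ge v 0 (if j = i0 then y i0 else 1) := by
        split_ifs
        · exact hr i0
        · exact Ge.one
      simpa using h3.mul h2
    · change v.Reg ((if j = i0 then y i0 else 1) * E1 j (y i0) / y i0)
      rw [hE1]
      by_cases hj : j = i0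
      · rw [if_pos hj, if_pos hj, mul_one, div_self hy0]
        exact v.reg_one
      · rw [if_neg hj, if_neg hj, mul_zero, zero_div]
        exact v.reg_zero
  have hDlog : ∀ j x, w.Reg (D j x / x) := by
    intro j x
    refine pLOG k L M v w ε hwv (D j) (fun f => ?_) x
    rw [hDE, ← map_div₀]
    exact hwv.reg.2 (hE2 j f)
  have hmain := ge_log2 hA hM F hω hreg E hE DB hDB w hw w0 e hov D hDlog
  have hdet : (Matrix.of fun a b => D a (F.z b)).det =
      algebraMap L M (y i0) * (Matrix.of fun a b => E' a (F.z b)).det := by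
    have h2 : (Matrix.of fun a b => D a (F.z b)) =
        (Matrix.of fun a b => (algebraMap L M (if a = i0 then y i0 else 1)) *
          (Matrix.of fun a b => E' a (F.z b)) a b) := rfl
    rw [h2, Matrix.det_mul_column, ← map_prod, Finset.prod_ite_eq' Finset.univ i0 (fun _ => y i0),
      if_pos (Finset.mem_univ _)]
  have hne : (Matrix.of fun a b => E' a (F.z b)).det ≠ 0 := by
    intro h
    have h2 := det_ne hE1 hE' F.z F.hz F.E F.g
    rw [h, zero_mul] at h2
    exact zero_ne_one h2
  have hη : (ω E : M) ≠ 0 := fun h => h0 (Subtype.ext h)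
  rcases hmain with h2 | h2
  · exfalso
    rw [hdet] at h2
    exact mul_ne_zero hη (pow_ne_zero _ (mul_ne_zero hyM hne)) h2
  · rw [hdet, w.ord_mul hη (pow_ne_zero _ (mul_ne_zero hyM hne)), w.ord_pow,
      w.ord_mul hyM hne, hwv.2, h1] at h2
    rw [w.ord_mul hη (pow_ne_zero _ hne), w.ord_pow]
    have h3 : (m0 : ℤ) * ε ≤ m0 * Module.finrank L M :=
      mul_le_mul_of_nonneg_left (by exact_mod_cast hε) (by positivity)
    nlinarith

end

end Pool.Agent.H63.YC
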