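import Pool.Agent.H63.YC.Plc

/-! Upper bounds: at the fibre over a place of the curve, and from the sections. -/

set_option autoImplicit false
set_option linter.overlappingInstances false
set_option linter.unusedSectionVars false

open FF IntermediateField Pool.Agent.W619.PQ Pool.Agent.W619.PL Pool.Agent.W619.TW
  Pool.Agent.W603.LV Pool.Agent.W619.Y Q36.GP
open Pool.Agent.W460.PG.ONE (VV finrank_VV eval)

namespace Pool.Agent.H63.YC

section

variable {k M : Type} [Field k] [CharZero k] [IsAlgClosed k] [Field M] [Algebra k M]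
  {A B : IntermediateField k M} {p n : ℕ} [hBF : IsFF k B]

theorem inr_B (F : Q36.GP.Frm A B p 1 n) (DB : Derivation k B B) (hDB : DB (F.y 0) = 1) (b : B) :
    F.E (F.ε (Sum.inr 0)) (b : M) = ((DB b : B) : M) := by
  refine der_comp (K := B) (L := M) DB (F.E (F.ε (Sum.inr 0))) F.y F.hy (fun c => ?_) b
  have hc : c = 0 := Subsingleton.elim _ _
  subst hc
  change F.E (F.ε (Sum.inr 0)) (F.y 0 : M) = ((DB (F.y 0) : B) : M)
  rw [F.f2, if_pos rfl, hDB]
  rfl

/-- the vector fields which are regular along the fibre over `w0` -/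
theorem UU_frame (h' : Pr B A) (F : Q36.GP.Frm A B p 1 n) (DB : Derivation k B B)
    (hDB : DB (F.y 0) = 1) (w0 : Place k B) :
    (∀ l, Pres (UU h' w0) (F.E (F.ε (Sum.inl l)))) ∧
      Pres (UU h' w0) ((((DB (unif w0))⁻¹ : B) : M) • F.E (F.ε (Sum.inr 0))) := by
  have hDB0 : DB ≠ 0 := by
    rintro rfl
    exact zero_ne_one hDB
  have hu : w0.ord (unif w0) = 1 := ord_unif w0
  have hr0 := der_pi_ne_zero hDB0 w0 hu
  refine ⟨fun l => UU_pres h' w0 _ (fun b _ => ⟨0, ?_, w0.reg_zero⟩) (fun a => F.e3 l a),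
    UU_pres h' w0 _ (fun b hb => ?_) (fun a => ⟨0, ?_⟩)⟩
  · rw [F.e1]; rfl
  · refine ⟨(DB (unif w0))⁻¹ * DB b, ?_, ?_⟩
    · change (((DB (unif w0))⁻¹ : B) : M) * F.E (F.ε (Sum.inr 0)) (b : M) = _
      rw [inr_B F DB hDB]
      rfl
    · obtain ⟨g, hg, h1⟩ := der_mul w0 hu hDB0 (f := b) hb
      rw [h1, inv_mul_cancel_left₀ hr0]
      exact hg
  · change (((DB (unif w0))⁻¹ : B) : M) * F.E (F.ε (Sum.inr 0)) (a : M) = _
    rw [F.f1, mul_zero]
    rfl

/-- the determinant of regular functions in the frame -/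
theorem UU_det (h' : Pr B A) (F : Q36.GP.Frm A B p 1 n) (DB : Derivation k B B)
    (hDB : DB (F.y 0) = 1) (w0 : Place k B) (y : Fin n → M) (hy : ∀ i, (UU h' w0).Reg (y i)) :
    Ge (UU h' w0) (vo w0 DB) (Matrix.of fun a b => F.E a (y b)).det := by
  classical
  have hDB0 : DB ≠ 0 := by
    rintro rfl
    exact zero_ne_one hDB
  have hu : w0.ord (unif w0) = 1 := ord_unif w0
  have hr0 := der_pi_ne_zero hDB0 w0 hu
  have hrM : ((DB (unif w0) : B) : M) ≠ 0 := fun h => hr0 (Subtype.ext h)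
  obtain ⟨h1, h2⟩ := UU_frame h' F DB hDB w0
  let c : Fin n → M := fun a => if a = F.ε (Sum.inr 0) then ((DB (unif w0) : B) : M) else 1
  let G : Matrix (Fin n) (Fin n) M := Matrix.of fun a b => (c a)⁻¹ * F.E a (y b)
  have hc0 : ∀ a, c a ≠ 0 := by
    intro a
    simp only [c]
    split_ifs
    · exact hrM
    · exact one_ne_zero
  have h3 : (Matrix.of fun a b => F.E a (y b)) = Matrix.of fun a b => c a * G a b := by
    ext a b
    rw [Matrix.of_apply, Matrix.of_apply]
    simp only [G, Matrix.of_apply]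
    rw [mul_inv_cancel_left₀ (hc0 a)]
  have h4 : (Matrix.of fun a b => F.E a (y b)).det = ((DB (unif w0) : B) : M) * G.det := by
    rw [h3, Matrix.det_mul_column]
    congr 1
    simp only [c]
    rw [Finset.prod_ite_eq' Finset.univ _ (fun _ => ((DB (unif w0) : B) : M)),
      if_pos (Finset.mem_univ _)]
  have h5 : Ge (UU h' w0) 0 G.det := by
    refine Pool.Agent.W619.PQ.ge_det _ _ fun a b => ?_
    simp only [G, Matrix.of_apply, c]
    by_cases ha : a = F.ε (Sum.inr 0)
    · rw [if_pos ha, ha]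
      have h6 := h2 (y b) (hy b)
      change Ge (UU h' w0) 0 ((((DB (unif w0))⁻¹ : B) : M) * F.E (F.ε (Sum.inr 0)) (y b)) at h6
      have h7 : (((DB (unif w0))⁻¹ : B) : M) = ((DB (unif w0) : B) : M)⁻¹ := rfl
      rwa [h7] at h6
    · rw [if_neg ha, inv_one, one_mul]
      obtain ⟨s, rfl⟩ := F.ε.surjective a
      rcases s with l | l
      · exact h1 l (y b) (hy b)
      · exact absurd (by rw [Subsingleton.elim l 0]) ha
  rw [h4]
  have h6 := (ge_self (UU h' w0) ((DB (unif w0) : B) : M)).mul h5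
  rw [UU_M, add_zero] at h6
  exact h6

end

section

variable {k L M : Type} [Field k] [CharZero k] [IsAlgClosed k] [Field L] [Field M] [Algebra k L]
  [Algebra k M] [Algebra L M] [IsScalarTower k L M] [FiniteDimensional L M]
  {A B : IntermediateField k M} {p n : ℕ} [hBF : IsFF k B]

/-- the upper bound at the fibre -/
theorem Dat.up (h' : Pr B A) (F : Q36.GP.Frm A B p 1 n) {m0 : ℕ} (a : A) (ha : a ≠ 0)
    (DB : Derivation k B B) (hDB : DB (F.y 0) = 1) (w0 : Place k B) {R : ℤ}
    (hR : Dat L (a : M) m0 F.z (UU h' w0) R) : R ≤ (m0 : ℤ) * (- vo w0 DB) := by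
  obtain ⟨v, ε, y, E1, E', i0, hwv, hε, hv, hy, hE1, h1, hr, hp, hE', rfl⟩ := hR
  have h2 := det_ne hE1 hE' F.z F.hz F.E F.g
  have h3 := UU_det h' F DB hDB w0 (fun b => algebraMap L M (y b)) (fun i => hwv.reg.2 (hr i))
  have hne : (Matrix.of fun a b => E' a (F.z b)).det ≠ 0 := fun h => by
    rw [h, zero_mul] at h2
    exact zero_ne_one h2
  have hne2 : (Matrix.of fun a b => F.E a (algebraMap L M (y b))).det ≠ 0 := fun h => by
    rw [h, mul_zero] at h2
    exact zero_ne_one h2
  have haM : (a : M) ≠ 0 := fun h => ha (Subtype.ext h)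
  have h4 := (UU h' w0).ord_mul hne hne2
  rw [h2, Place.ord_one] at h4
  have h5 := h3.resolve_left hne2
  rw [(UU h' w0).ord_mul haM (pow_ne_zero _ hne), UU_F, Place.ord_pow, zero_add]
  exact mul_le_mul_of_nonneg_left (by linarith) (by positivity)

/-- constants of the vector fields along the first factor -/
theorem const_inl (hA : Algebra.trdeg k A = p) (F : Q36.GP.Frm A B p 1 n) (a : A)
    (ha : ∀ l, F.E (F.ε (Sum.inl l)) (a : M) = 0) : ∃ c : k, a = algebraMap k A c := by
  refine const_of_alg ?_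
  by_contra hcon
  have h1 : AlgebraicIndependent k (fun _ : Fin 1 => a) := by
    rw [algebraicIndependent_unique_type_iff]
    exact hcon
  obtain ⟨y, hy, g, -, hgx⟩ := Q36.GV.extend_basis hA h1
  choose E hE using fun j => exists_dual y hy j
  choose EA hEA using fun j => exists_dual F.x F.hx j
  have h2 : ∀ l (z : A), F.E (F.ε (Sum.inl l)) (z : M) = ((EA l z : A) : M) := fun l z => by
    refine der_comp (K := A) (L := M) (EA l) (F.E (F.ε (Sum.inl l))) F.x F.hx (fun c => ?_) z
    change F.E (F.ε (Sum.inl l)) (F.x c : M) = ((EA l (F.x c) : A) : M)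
    rw [F.e2, hEA]
    by_cases hc : l = c
    · rw [if_pos hc, if_pos hc.symm]; rfl
    · rw [if_neg hc, if_neg (Ne.symm hc)]; rfl
  have h3 : ∀ l, EA l a = 0 := by
    intro l
    have h4 := h2 l a
    rw [ha] at h4
    exact (Subtype.ext h4).symm
  have h4 := der_exp (k := k) F.x F.hx EA (fun i j => by
    rw [hEA]
    by_cases hc : i = j
    · rw [if_pos hc, if_pos hc.symm]
    · rw [if_neg hc, if_neg (Ne.symm hc)]) (E (g 0)) a
  have h5 : E (g 0) a = 1 := by
    rw [← hgx 0, hE, if_pos rfl]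
  rw [h5] at h4
  simp only [h3, mul_zero, Finset.sum_const_zero] at h4
  exact one_ne_zero h4

/-- the pull-back of a section -/
theorem exists_pull [Algebra.EssFiniteType k L] (hL : Algebra.trdeg k L = n) (S : Finset L) :
    ∃ SM : Finset M, ∀ (m : ℕ) (ω : (Fin n → Derivation k L L) → L),
      IsSec k L n (fun _ => False) S m 1 ω → ∃ θ : (Fin n → Derivation k M M) → M,
        IsSec k M n (fun _ => False) SM m 1 θ ∧
        ∀ (D : Fin n → Derivation k L L) (D' : Fin n → Derivation k M M),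
          (∀ j f, D' j (algebraMap L M f) = algebraMap L M (D j f)) →
          θ D' = algebraMap L M (ω D) := by
  classical
  obtain ⟨y, E, hy, hE⟩ := Pool.Agent.Y172.exists_crd hL
  refine ⟨S.image (algebraMap L M), fun m ω hω =>
    ⟨fun D => (Matrix.of fun a b => D a (algebraMap L M (y b))).det ^ m *
      algebraMap L M (ω E), ?_, ?_⟩⟩
  · have h1 := pPULL k L M n hL (fun y hy => fin_over y hy) (fun _ => False) S m 1 y E hy hE ω hω
    rw [Q36.GP.bdUp_false] at h1
    exact h1
  · intro D D' hD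
    have h1 := eval y hy E (fun i j => by
      rw [hE]
      by_cases hij : i = j
      · rw [if_pos hij, if_pos hij.symm]
      · rw [if_neg hij, if_neg (Ne.symm hij)]) hω.1 D
    beta_reduce
    rw [h1, map_mul, map_pow, RingHom.map_det]
    congr 3
    ext a b
    rw [Matrix.of_apply, hD]
    rfl

/-- **The bound from the sections.** -/
theorem Dat.sec (hA : Algebra.trdeg k A = p) [Algebra.EssFiniteType k M]
    (hM : Algebra.trdeg k M = n) (F : Q36.GP.Frm A B p 1 n) {m0 : ℕ}
    (a : A) (ha : a ≠ 0) (S : Finset L) (h0 : M) {d : ℕ} (u : Fin d → A)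
    (hu : LinearIndependent k u) (w : Place k M) (hw : IsDivisorial w n) {R : ℤ}
    (hR : Dat L (a : M) m0 F.z w R) :
    ∃ K : ℤ, ∀ (s q : ℕ), q ≤ m0 → ∀ (ω : (Fin n → Derivation k L L) → L),
      IsSec k L n (fun _ => False) S (m0 * s + q) 1 ω →
      ∀ θ : (Fin n → Derivation k M M) → M, IsPluriForm k M n (m0 * s + q) θ →
      (∀ (D : Fin n → Derivation k L L) (D' : Fin n → Derivation k M M),
          (∀ j f, D' j (algebraMap L M f) = algebraMap L M (D j f)) →
          θ D' = algebraMap L M (ω D)) → ∀ c : Fin d → B,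
      h0 * θ F.E = (a : M) ^ s * ∑ j, (u j : M) * (c j : M) →
      ∀ j, Ge w (-(s * R) - K) (c j : M) := by
  classical
  obtain ⟨v, ε, y, E1, E', i0, hwv, hε, hv, hy, hE1, h1, hr, hp, hE', rfl⟩ := hR
  set Δ : M := (Matrix.of fun a b => E' a (F.z b)).det with hΔ
  have hΔ0 : Δ ≠ 0 := fun h => by
    have h2 := det_ne hE1 hE' F.z F.hz F.E F.g
    rw [← hΔ, h, zero_mul] at h2
    exact zero_ne_one h2
  have haM : (a : M) ≠ 0 := fun h => ha (Subtype.ext h)
  -- continuity
  choose P hP using fun l : Fin p => der_cont hM w hw (F.E (F.ε (Sum.inl l)))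
  let P0 : ℤ := ∑ l, |P l|
  have hP0 : ∀ l m z, Ge w m z → Ge w (m - P0) (F.E (F.ε (Sum.inl l)) z) := by
    intro l m z hz
    refine (hP l m z hz).mono ?_
    have h2 : |P l| ≤ P0 := Finset.single_le_sum (f := fun l => |P l|)
      (fun _ _ => abs_nonneg _) (Finset.mem_univ l)
    have h3 := le_abs_self (P l)
    linarith
  obtain ⟨K, hK⟩ := ce w (fun l => F.E (F.ε (Sum.inl l))) F.e1 F.e3
    (fun a ha => const_inl hA F a ha) P0 hP0 d Unit (fun j _ => u j) (by
      rw [Fintype.linearIndependent_iff] at hu ⊢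
      intro g hg
      refine hu g ?_
      have h2 := congrFun hg ()
      rw [Finset.sum_apply] at h2
      exact h2)
  let K1 : ℤ := ∑ s ∈ S, |w.ord (algebraMap L M s)|
  refine ⟨K + |w.ord h0| + m0 * |w.ord Δ| + K1, fun s q hq ω hω θ hθ hθω c hc j => ?_⟩
  -- the value on the frame
  have h2 : Ge w (-K1) (algebraMap L M (ω E1)) := by
    rcases hω.2.1 v hv not_false E1 (fun l f hf => hp l f hf) with h3 | ⟨s', hs', hs0, h3⟩
    · left
      rw [h3, map_zero]
    · right
      rw [hwv.2]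
      have h4 : |w.ord (algebraMap L M s')| ≤ K1 :=
        Finset.single_le_sum (f := fun s => |w.ord (algebraMap L M s)|)
          (fun _ _ => abs_nonneg _) hs'
      have h5 := neg_abs_le (w.ord (algebraMap L M s'))
      rw [hwv.2 s'] at h5 h4
      have h6 : (ε : ℤ) * v.ord s' ≤ ε * v.ord (ω E1) :=
        mul_le_mul_of_nonneg_left (by simpa using h3) (by positivity)
      linarith
  have h3 : algebraMap L M (ω E1) = Δ ^ (m0 * s + q) * θ F.E := by
    rw [← hθω E1 E' hE']
    exact eval F.z F.hz F.E (fun i j => by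
      rw [F.g]
      by_cases hij : i = j
      · rw [if_pos hij, if_pos hij.symm]
      · rw [if_neg hij, if_neg (Ne.symm hij)]) hθ E'
  have h4 : ∑ j, (u j : M) * (c j : M) =
      h0 * ((a : M) ^ s)⁻¹ * (Δ ^ (m0 * s + q))⁻¹ * algebraMap L M (ω E1) := by
    rw [h3]
    have h5 := pow_ne_zero s haM
    have h6 := pow_ne_zero (m0 * s + q) hΔ0
    field_simp
    rw [hc]
    ring
  have h5 : Ge w (w.ord h0 - s * w.ord (a : M) - (m0 * s + q : ℕ) * w.ord Δ - K1)
      (∑ j, (u j : M) * (c j : M)) := by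
    rw [h4]
    have h6 := (((ge_self w h0).mul (ge_self w ((a : M) ^ s)⁻¹)).mul
      (ge_self w (Δ ^ (m0 * s + q))⁻¹)).mul h2
    rw [w.ord_inv, w.ord_inv, w.ord_pow, w.ord_pow] at h6
    refine h6.mono ?_
    linarith
  have h6 := hK _ c (fun _ => h5) j
  refine h6.mono ?_
  rw [w.ord_mul haM (pow_ne_zero _ hΔ0), w.ord_pow]
  have h7 := neg_abs_le (w.ord h0)
  have h8 : (q : ℤ) * w.ord Δ ≤ m0 * |w.ord Δ| := by
    have h9 := le_abs_self (w.ord Δ)
    have h10 : (q : ℤ) * w.ord Δ ≤ q * |w.ord Δ| := mul_le_mul_of_nonneg_left h9 (by positivity)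
    have h11 : (q : ℤ) * |w.ord Δ| ≤ m0 * |w.ord Δ| :=
      mul_le_mul_of_nonneg_right (by exact_mod_cast hq) (abs_nonneg _)
    linarith
  push_cast
  nlinarith

end

end Pool.Agent.H63.YC
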